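import Pool.Agent.H86.BX.CaseP

/-! Case P, final part. -/

set_option autoImplicit false

namespace Pool.H86BX

open Finset Pool.H90BX
open scoped Classical

variable {V : Type} [Fintype V] [DecidableEq V] {r : ℕ} {l : LS V} {psi : Fin r → Fin r}
  {part : V → Lb → Fin r} {s : ℝ} {U : Finset V} {K : Finset (Fin r)}

/-- conclusion of case P -/
def Goal (l : LS V) (psi : Fin r → Fin r) (part : V → Lb → Fin r) (s : ℝ) : Prop :=
  ∃ (BadV : Finset V) (CS : Conf V) (kap : V × Bool → Fin r), Sol l psi part BadV CS kap ∧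
    (BadV.card : ℝ) ≤ 2000 * s * nn V

theorem bound_aux (h : PC l psi part s U K) {S : Finset V} (hS : S.card ≤ 4) {m : ℕ} (hm : m ≤ 5)
    {B : Finset V} (hB : B.card ≤ (Uᶜ ∪ S).card + m) : (B.card : ℝ) ≤ 2000 * s * nn V := by
  have h1 : (Uᶜ ∪ S).card ≤ (Uᶜ).card + S.card := Finset.card_union_le _ _
  have h2 : B.card ≤ (Uᶜ).card + 9 := by omega
  have h3 : (B.card : ℝ) ≤ ((Uᶜ).card : ℝ) + 9 := by exact_mod_cast h2
  have h4 := h.big
  have h5 := h.large
  linarith

theorem typ_E (h : PC l psi part s U K) (S : Finset V) : ∀ v, v ∉ Uᶜ ∪ S → Typ l psi part v := by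
  intro v hv
  rw [Finset.mem_union, not_or, Finset.mem_compl, not_not] at hv
  exact PC_typ h hv.1

theorem finish (h : PC l psi part s U K) {S : Finset V} (hS : S.card ≤ 4) {mate : V → V}
    {t0 t1 : V → Lb × Fin r} (hp : Plan l psi part (Uᶜ ∪ S) mate t0 t1)
    (hm : ∀ v, v ∉ S → mate v = v) (hb : Bal psi (∑ v, ct mate t0 t1 v)) : Goal l psi part s := by
  obtain ⟨B, CS, kap, h1, h2⟩ := build (typ_E h S) hp hb
  have h3 : (univ.filter (fun v => mate v ≠ v)).card ≤ S.card := by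
    refine Finset.card_le_card ?_
    intro v hv
    by_contra hcon
    exact (Finset.mem_filter.1 hv).2 (hm v hcon)
  exact ⟨B, CS, kap, h1, bound_aux h hS (m := (univ.filter (fun v => mate v ≠ v)).card)
    (by omega) h2⟩

theorem finish_hub (h : PC l psi part s U K) {S : Finset V} (hS : S.card ≤ 4) {mate : V → V}
    {t0 t1 : V → Lb × Fin r} (hp : Plan l psi part (Uᶜ ∪ S) mate t0 t1)
    (hm : ∀ v, v ∉ S → mate v = v) (w v : V)
    (hw : mate w ≠ w) (hv : mate v = v) (hlab : l w v ≠ l w (mate w)) (hlab2 : (t0 v).1 ≠ l v w)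
    (hb : Bal psi (∑ v, ct mate t0 t1 v - ev (t0 w).2 - ev (t1 v).2)) : Goal l psi part s := by
  obtain ⟨B, CS, kap, h1, h2⟩ := build_hub (typ_E h S) hp w v hw hv hlab hlab2 hb
  have h3 : (univ.filter (fun v => mate v ≠ v)).card ≤ S.card := by
    refine Finset.card_le_card ?_
    intro v hv
    by_contra hcon
    exact (Finset.mem_filter.1 hv).2 (hm v hcon)
  exact ⟨B, CS, kap, h1, bound_aux h hS (m := (univ.filter (fun v => mate v ≠ v)).card + 1)
    (by omega) (by rw [← add_assoc]; exact h2)⟩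

/-- case 1: one class -/
theorem case1 (h : PC l psi part s U K) {a : Fin r} (hK : K = {a}) : Goal l psi part s := by
  obtain ⟨a0, a1, hd⟩ := exists_dft h
  have hSS : ∀ x, x ∉ (∅ : Finset V) → (fun v : V => v) x = x ∧
      (fun v => (mx l v, a0 v)) x = (mx l x, a0 x) ∧
      (fun v => (md l v, a1 v)) x = (md l x, a1 x) := fun x _ => ⟨rfl, rfl, rfl⟩
  have hp := mkPlan hd (∅ : Finset V) (fun v => v) (fun v => (mx l v, a0 v))
    (fun v => (md l v, a1 v)) (fun _ => rfl) hSS (fun x hx => absurd hx (Finset.notMem_empty x))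
    (fun x hx => absurd hx (Finset.notMem_empty x)) (fun x hx => absurd hx (Finset.notMem_empty x))
  refine finish h (by simp) hp (fun _ _ => rfl) ?_
  rw [sum_ct ∅ hSS, Finset.sum_empty, add_zero]
  refine bal_K h.inv h.kfix (rest_supp hd _) ?_
  have h1 := rest_tot (a0 := a0) (a1 := a1) (∅ : Finset V)
  rw [tot_supp (rest_supp hd _), hK, Finset.sum_singleton] at h1
  intro A hA
  rw [hK, Finset.mem_singleton] at hA
  rw [hA]
  exact h1

/-- case 2: two classes -/
theorem case2 (h : PC l psi part s U K) {a b : Fin r} (hab : a ≠ b) (hK : K = {a, b})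
    {v0 : V} (hv0 : v0 ∈ U) (ht0 : tp l part v0 = {a, b}) : Goal l psi part s := by
  obtain ⟨a0, a1, hd⟩ := exists_dft h
  obtain ⟨w0, hw0, hl0⟩ := exists_mn h hv0 hab ht0
  set S : Finset V := {v0, w0} with hS
  set c0 : Lb × Fin r := dt l a0 a1 w0 (l w0 v0) with hc0
  set R : Fin r → ℤ := rest a0 a1 S + ev c0.2 with hR
  have hRs : SuppK K R := (rest_supp hd S).add (suppK_ev (dt_K hd _ _))
  have hRt : Odd (tot R) := by
    rw [hR, tot_add, tot_ev]; exact (rest_tot S).add_one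
  rw [hK] at hRs
  obtain ⟨x, hx, hxe⟩ := parity2 hab hRs hRt
  have hxt : x ∈ tp l part v0 := by rw [ht0, Finset.mem_insert, Finset.mem_singleton]; exact hx
  obtain ⟨i, i', hi, hlx⟩ := tp_label hxt
  have himn : i ≠ mn l v0 := by
    rcases hi with ⟨rfl, -⟩ | ⟨rfl, -⟩
    · exact mx_ne_mn l v0
    · exact md_ne_mn l v0
  have hiact : Act l psi part v0 i x := by
    rw [← hlx]
    exact act_U h hv0 (by rcases hi with ⟨h1, -⟩ | ⟨h1, -⟩; exacts [Or.inl h1, Or.inr h1])
  set mate : V → V := fun v => Equiv.swap v0 w0 v with hmate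
  set t0 : V → Lb × Fin r := fun v => if v = v0 then (i, x) else if v = w0 then c0 else
    (mx l v, a0 v) with ht0'
  set t1 : V → Lb × Fin r := fun v => (md l v, a1 v) with ht1'
  have m0 : mate v0 = w0 := Equiv.swap_apply_left _ _
  have m1 : mate w0 = v0 := Equiv.swap_apply_right _ _
  have e0 : t0 v0 = (i, x) := by rw [ht0']; simp
  have e1 : t0 w0 = c0 := by rw [ht0']; simp [hw0]
  have hSm : ∀ v, v ∈ S ↔ v = v0 ∨ v = w0 := by
    intro v; rw [hS, Finset.mem_insert, Finset.mem_singleton]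
  have hSS : ∀ v, v ∉ S → mate v = v ∧ t0 v = (mx l v, a0 v) ∧ t1 v = (md l v, a1 v) := by
    intro v hv
    rw [hSm, not_or] at hv
    refine ⟨Equiv.swap_apply_of_ne_of_ne hv.1 hv.2, ?_, rfl⟩
    rw [ht0']
    simp only [if_neg hv.1, if_neg hv.2]
  have hp : Plan l psi part (Uᶜ ∪ S) mate t0 t1 := by
    refine mkPlan hd S mate t0 t1 (fun v => Equiv.swap_apply_self _ _ _) hSS ?_ ?_ ?_
    · intro v hv
      rcases (hSm v).1 hv with rfl | rfl
      · rw [e0]; exact hiact
      · rw [e1]; exact dt_act hd _ _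
    · intro v hv hmv
      rcases (hSm v).1 hv with rfl | rfl
      · rw [m0] at hmv; exact absurd hmv hw0
      · rw [m1] at hmv; exact absurd hmv.symm hw0
    · intro v hv _
      rcases (hSm v).1 hv with rfl | rfl
      · rw [e0, m0, hl0]; exact himn
      · rw [e1, m1]; exact dt_ne _ _
  refine finish h (le_trans Finset.card_le_two (by norm_num)) hp (fun v hv => (hSS v hv).1) ?_
  have hsum : ∑ v, ct mate t0 t1 v = R + ev x := by
    rw [sum_ct S hSS, hS, Finset.sum_pair hw0.symm]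
    unfold ct
    rw [m0, if_neg hw0, m1, if_neg hw0.symm, e0, e1, ← hS, hR]
    abel
  rw [hsum]
  refine bal_K h.inv h.kfix ?_ (by rw [hK]; exact hxe)
  rw [hK]
  refine hRs.add (suppK_ev ?_)
  rw [Finset.mem_insert, Finset.mem_singleton]; exact hx

/-- case 3, disjoint gadgets -/
theorem case3_disj (h : PC l psi part s U K) {x y z : Fin r} (hxy : x ≠ y) (hxz : x ≠ z)
    (hyz : y ≠ z) (hK : K = {x, y, z}) {v0 v1 w0 w1 : V} (hv0 : v0 ∈ U) (hv1 : v1 ∈ U)
    (ht0 : tp l part v0 = {x, y}) (ht1 : tp l part v1 = {x, z}) (h01 : v0 ≠ v1)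
    (hw0 : w0 ≠ v0) (hw1 : w1 ≠ v1) (hl0 : l v0 w0 = mn l v0) (hl1 : l v1 w1 = mn l v1)
    (h1 : w0 ≠ v1) (h2 : w1 ≠ v0) (hww : w0 ≠ w1) : Goal l psi part s := by
  obtain ⟨a0, a1, hd⟩ := exists_dft h
  set S : Finset V := {v0, w0, v1, w1} with hS
  set c0 : Lb × Fin r := dt l a0 a1 w0 (l w0 v0) with hc0
  set c1 : Lb × Fin r := dt l a0 a1 w1 (l w1 v1) with hc1
  set R : Fin r → ℤ := rest a0 a1 S + ev c0.2 + ev c1.2 with hR
  have hRs : SuppK K R :=
    ((rest_supp hd S).add (suppK_ev (dt_K hd _ _))).add (suppK_ev (dt_K hd _ _))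
  have hRt : Even (tot R) := by
    rw [hR, tot_add, tot_add, tot_ev, tot_ev]; exact (rest_tot S).add_one.add_one
  rw [hK] at hRs
  obtain ⟨p, q, hp', hq', hpq⟩ := parity3 hxy hxz hyz hRs hRt
  have hpt : p ∈ tp l part v0 := by rw [ht0, Finset.mem_insert, Finset.mem_singleton]; exact hp'
  have hqt : q ∈ tp l part v1 := by rw [ht1, Finset.mem_insert, Finset.mem_singleton]; exact hq'
  obtain ⟨i, i', hi, hlp⟩ := tp_label hpt
  obtain ⟨j, j', hj, hlq⟩ := tp_label hqt
  have himn : i ≠ mn l v0 := by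
    rcases hi with ⟨rfl, -⟩ | ⟨rfl, -⟩
    · exact mx_ne_mn l v0
    · exact md_ne_mn l v0
  have hjmn : j ≠ mn l v1 := by
    rcases hj with ⟨rfl, -⟩ | ⟨rfl, -⟩
    · exact mx_ne_mn l v1
    · exact md_ne_mn l v1
  have hiact : Act l psi part v0 i p := by
    rw [← hlp]
    exact act_U h hv0 (by rcases hi with ⟨h1, -⟩ | ⟨h1, -⟩; exacts [Or.inl h1, Or.inr h1])
  have hjact : Act l psi part v1 j q := by
    rw [← hlq]
    exact act_U h hv1 (by rcases hj with ⟨h1, -⟩ | ⟨h1, -⟩; exacts [Or.inl h1, Or.inr h1])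
  set mate : V → V := fun v => if v = v0 then w0 else if v = w0 then v0 else
    if v = v1 then w1 else if v = w1 then v1 else v with hmate
  set t0 : V → Lb × Fin r := fun v => if v = v0 then (i, p) else if v = w0 then c0 else
    if v = v1 then (j, q) else if v = w1 then c1 else (mx l v, a0 v) with ht0'
  set t1 : V → Lb × Fin r := fun v => (md l v, a1 v) with ht1'
  have m0 : mate v0 = w0 := by rw [hmate]; simp
  have m1 : mate w0 = v0 := by rw [hmate]; simp [hw0]
  have m2 : mate v1 = w1 := by rw [hmate]; simp [h01.symm, h1.symm]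
  have m3 : mate w1 = v1 := by rw [hmate]; simp [h2, hww.symm, hw1]
  have e0 : t0 v0 = (i, p) := by rw [ht0']; simp
  have e1 : t0 w0 = c0 := by rw [ht0']; simp [hw0]
  have e2 : t0 v1 = (j, q) := by rw [ht0']; simp [h01.symm, h1.symm]
  have e3 : t0 w1 = c1 := by rw [ht0']; simp [h2, hww.symm, hw1]
  have hSm : ∀ v, v ∈ S ↔ v = v0 ∨ v = w0 ∨ v = v1 ∨ v = w1 := by
    intro v; rw [hS]; simp only [Finset.mem_insert, Finset.mem_singleton]
  have hSS : ∀ v, v ∉ S → mate v = v ∧ t0 v = (mx l v, a0 v) ∧ t1 v = (md l v, a1 v) := by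
    intro v hv
    rw [hSm, not_or, not_or, not_or] at hv
    refine ⟨?_, ?_, rfl⟩
    · rw [hmate]
      simp only [if_neg hv.1, if_neg hv.2.1, if_neg hv.2.2.1, if_neg hv.2.2.2]
    · rw [ht0']
      simp only [if_neg hv.1, if_neg hv.2.1, if_neg hv.2.2.1, if_neg hv.2.2.2]
  have hinv : ∀ v, mate (mate v) = v := by
    intro v
    by_cases hv : v ∈ S
    · rcases (hSm v).1 hv with rfl | rfl | rfl | rfl
      · rw [m0, m1]
      · rw [m1, m0]
      · rw [m2, m3]
      · rw [m3, m2]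
    · rw [(hSS v hv).1, (hSS v hv).1]
  have hp : Plan l psi part (Uᶜ ∪ S) mate t0 t1 := by
    refine mkPlan hd S mate t0 t1 hinv hSS ?_ ?_ ?_
    · intro v hv
      rcases (hSm v).1 hv with rfl | rfl | rfl | rfl
      · rw [e0]; exact hiact
      · rw [e1]; exact dt_act hd _ _
      · rw [e2]; exact hjact
      · rw [e3]; exact dt_act hd _ _
    · intro v hv hmv
      rcases (hSm v).1 hv with rfl | rfl | rfl | rfl
      · rw [m0] at hmv; exact absurd hmv hw0
      · rw [m1] at hmv; exact absurd hmv.symm hw0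
      · rw [m2] at hmv; exact absurd hmv hw1
      · rw [m3] at hmv; exact absurd hmv.symm hw1
    · intro v hv _
      rcases (hSm v).1 hv with rfl | rfl | rfl | rfl
      · rw [e0, m0, hl0]; exact himn
      · rw [e1, m1]; exact dt_ne _ _
      · rw [e2, m2, hl1]; exact hjmn
      · rw [e3, m3]; exact dt_ne _ _
  refine finish h Finset.card_le_four hp (fun v hv => (hSS v hv).1) ?_
  have hsum : ∑ v, ct mate t0 t1 v = R + ev p + ev q := by
    rw [sum_ct S hSS, hS, Finset.sum_insert (by simp [hw0.symm, h01, h2.symm]),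
      Finset.sum_insert (by simp [h1, hww]), Finset.sum_pair hw1.symm]
    unfold ct
    rw [m0, if_neg hw0, m1, if_neg hw0.symm, m2, if_neg hw1, m3, if_neg hw1.symm, e0, e1, e2, e3,
      ← hS, hR]
    abel
  rw [hsum]
  refine bal_K h.inv h.kfix ?_ (by rw [hK]; exact hpq)
  rw [hK]
  refine (hRs.add (suppK_ev ?_)).add (suppK_ev ?_)
  · rcases hp' with rfl | rfl <;> simp
  · rcases hq' with rfl | rfl <;> simp

/-- case 3, common hub -/
theorem case3_hub (h : PC l psi part s U K) {x y z : Fin r} (hxy : x ≠ y) (hxz : x ≠ z)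
    (hyz : y ≠ z) (hK : K = {x, y, z}) {v0 v1 w : V} (hv0 : v0 ∈ U) (hv1 : v1 ∈ U)
    (ht0 : tp l part v0 = {x, y}) (ht1 : tp l part v1 = {x, z}) (h01 : v0 ≠ v1)
    (hw0 : w ≠ v0) (hw1 : w ≠ v1) (hl0 : l v0 w = mn l v0) (hl1 : l v1 w = mn l v1)
    (hlab : l w v0 ≠ l w v1) : Goal l psi part s := by
  obtain ⟨a0, a1, hd⟩ := exists_dft h
  set S : Finset V := {v0, w, v1} with hS
  set c0 : Lb × Fin r := dt l a0 a1 w (l w v0) with hc0
  set R : Fin r → ℤ := rest a0 a1 S with hR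
  have hRs : SuppK K R := rest_supp hd S
  have hRt : Even (tot R) := rest_tot S
  rw [hK] at hRs
  obtain ⟨p, q, hp', hq', hpq⟩ := parity3 hxy hxz hyz hRs hRt
  have hpt : p ∈ tp l part v0 := by rw [ht0, Finset.mem_insert, Finset.mem_singleton]; exact hp'
  have hqt : q ∈ tp l part v1 := by rw [ht1, Finset.mem_insert, Finset.mem_singleton]; exact hq'
  obtain ⟨i, i', hi, hlp⟩ := tp_label hpt
  obtain ⟨j, j', hj, hlq⟩ := tp_label hqt
  have himn : i ≠ mn l v0 := by
    rcases hi with ⟨rfl, -⟩ | ⟨rfl, -⟩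
    · exact mx_ne_mn l v0
    · exact md_ne_mn l v0
  have hjmn : j ≠ mn l v1 := by
    rcases hj with ⟨rfl, -⟩ | ⟨rfl, -⟩
    · exact mx_ne_mn l v1
    · exact md_ne_mn l v1
  have hjj : j ≠ j' := by
    rcases hj with ⟨rfl, rfl⟩ | ⟨rfl, rfl⟩
    · exact mx_ne_md l v1
    · exact (mx_ne_md l v1).symm
  have hiact : Act l psi part v0 i p := by
    rw [← hlp]
    exact act_U h hv0 (by rcases hi with ⟨h1, -⟩ | ⟨h1, -⟩; exacts [Or.inl h1, Or.inr h1])
  have hjact : Act l psi part v1 j q := by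
    rw [← hlq]
    exact act_U h hv1 (by rcases hj with ⟨h1, -⟩ | ⟨h1, -⟩; exacts [Or.inl h1, Or.inr h1])
  have hjact' : Act l psi part v1 j' (lam l part v1 j') :=
    act_U h hv1 (by rcases hj with ⟨-, h1⟩ | ⟨-, h1⟩; exacts [Or.inr h1, Or.inl h1])
  set mate : V → V := fun v => Equiv.swap v0 w v with hmate
  set t0 : V → Lb × Fin r := fun v => if v = v0 then (i, p) else if v = w then c0 else
    if v = v1 then (j, q) else (mx l v, a0 v) with ht0'
  set t1 : V → Lb × Fin r := fun v => if v = v1 then (j', lam l part v1 j') else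
    (md l v, a1 v) with ht1'
  have m0 : mate v0 = w := Equiv.swap_apply_left _ _
  have m1 : mate w = v0 := Equiv.swap_apply_right _ _
  have m2 : mate v1 = v1 := Equiv.swap_apply_of_ne_of_ne h01.symm hw1.symm
  have e0 : t0 v0 = (i, p) := by rw [ht0']; simp
  have e1 : t0 w = c0 := by rw [ht0']; simp [hw0]
  have e2 : t0 v1 = (j, q) := by rw [ht0']; simp [h01.symm, hw1.symm]
  have e3 : t1 v1 = (j', lam l part v1 j') := by rw [ht1']; simp
  have hSm : ∀ v, v ∈ S ↔ v = v0 ∨ v = w ∨ v = v1 := by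
    intro v; rw [hS]; simp only [Finset.mem_insert, Finset.mem_singleton]
  have hSS : ∀ v, v ∉ S → mate v = v ∧ t0 v = (mx l v, a0 v) ∧ t1 v = (md l v, a1 v) := by
    intro v hv
    rw [hSm, not_or, not_or] at hv
    refine ⟨Equiv.swap_apply_of_ne_of_ne hv.1 hv.2.1, ?_, ?_⟩
    · rw [ht0']
      simp only [if_neg hv.1, if_neg hv.2.1, if_neg hv.2.2]
    · rw [ht1']
      simp only [if_neg hv.2.2]
  have hp : Plan l psi part (Uᶜ ∪ S) mate t0 t1 := by
    refine mkPlan hd S mate t0 t1 (fun v => Equiv.swap_apply_self _ _ _) hSS ?_ ?_ ?_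
    · intro v hv
      rcases (hSm v).1 hv with rfl | rfl | rfl
      · rw [e0]; exact hiact
      · rw [e1]; exact dt_act hd _ _
      · rw [e2]; exact hjact
    · intro v hv hmv
      rcases (hSm v).1 hv with rfl | rfl | rfl
      · rw [m0] at hmv; exact absurd hmv hw0
      · rw [m1] at hmv; exact absurd hmv.symm hw0
      · rw [e3, e2]; exact ⟨hjact', hjj⟩
    · intro v hv hmv
      rcases (hSm v).1 hv with rfl | rfl | rfl
      · rw [e0, m0, hl0]; exact himn
      · rw [e1, m1]; exact dt_ne _ _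
      · exact absurd m2 hmv
  have hcard : S.card ≤ 4 := le_trans Finset.card_le_three (by norm_num)
  refine finish_hub h hcard hp (fun v hv => (hSS v hv).1) w v1 ?_ m2 ?_ ?_ ?_
  · rw [m1]; exact hw0.symm
  · rw [m1]; exact hlab.symm
  · rw [e2, hl1]; exact hjmn
  have hsum : ∑ v, ct mate t0 t1 v - ev (t0 w).2 - ev (t1 v1).2 = R + ev p + ev q := by
    rw [sum_ct S hSS, hS, Finset.sum_insert (by simp [hw0.symm, h01]), Finset.sum_pair hw1]
    unfold ct
    rw [m0, if_neg hw0, m1, if_neg hw0.symm, m2, if_pos rfl, e0, e1, e2, e3, ← hS, hR]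
    abel
  rw [hsum]
  refine bal_K h.inv h.kfix ?_ (by rw [hK]; exact hpq)
  rw [hK]
  refine (hRs.add (suppK_ev ?_)).add (suppK_ev ?_)
  · rcases hp' with rfl | rfl <;> simp
  · rcases hq' with rfl | rfl <;> simp

theorem share {a b c : Fin r} (hab : a ≠ b) (hac : a ≠ c) (hbc : b ≠ c)
    (T : Fin 3 → Finset (Fin r)) (h0 : T 0 = {a, b}) (h1 : T 1 = {a, c}) (h2 : T 2 = {b, c})
    (i j : Fin 3) (hij : i ≠ j) : ∃ x y z, x ≠ y ∧ x ≠ z ∧ y ≠ z ∧
      ({a, b, c} : Finset (Fin r)) = {x, y, z} ∧ T i = {x, y} ∧ T j = {x, z} := by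
  have key : ∀ x y z : Fin r, ({x, y, z} : Finset (Fin r)) = {x, z, y} := by
    intro x y z; ext t; simp only [Finset.mem_insert, Finset.mem_singleton]; tauto
  have key2 : ∀ x y z : Fin r, ({x, y, z} : Finset (Fin r)) = {y, x, z} := by
    intro x y z; ext t; simp only [Finset.mem_insert, Finset.mem_singleton]; tauto
  have key3 : ∀ x y z : Fin r, ({x, y, z} : Finset (Fin r)) = {z, x, y} := by
    intro x y z; ext t; simp only [Finset.mem_insert, Finset.mem_singleton]; tauto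
  have key4 : ∀ x y z : Fin r, ({x, y, z} : Finset (Fin r)) = {y, z, x} := by
    intro x y z; ext t; simp only [Finset.mem_insert, Finset.mem_singleton]; tauto
  have key5 : ∀ x y z : Fin r, ({x, y, z} : Finset (Fin r)) = {z, y, x} := by
    intro x y z; ext t; simp only [Finset.mem_insert, Finset.mem_singleton]; tauto
  fin_cases i <;> fin_cases j <;> simp only [Fin.zero_eta, Fin.mk_one, Fin.reduceFinMk] at hij ⊢
  · exact absurd rfl hij
  · exact ⟨a, b, c, hab, hac, hbc, rfl, h0, h1⟩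
  · exact ⟨b, a, c, hab.symm, hbc, hac, key2 _ _ _, by rw [h0, Finset.pair_comm], h2⟩
  · exact ⟨a, c, b, hac, hab, hbc.symm, key _ _ _, h1, h0⟩
  · exact absurd rfl hij
  · exact ⟨c, a, b, hac.symm, hbc.symm, hab, key3 _ _ _, by rw [h1, Finset.pair_comm],
      by rw [h2, Finset.pair_comm]⟩
  · exact ⟨b, c, a, hbc, hab.symm, hac.symm, key4 _ _ _, h2, by rw [h0, Finset.pair_comm]⟩
  · exact ⟨c, b, a, hbc.symm, hac.symm, hab.symm, key5 _ _ _, by rw [h2, Finset.pair_comm],
      by rw [h1, Finset.pair_comm]⟩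
  · exact absurd rfl hij

theorem exists_other (h : PC l psi part s U K) (v : V) : ∃ w, w ≠ v := by
  have h1 := PC_nn h
  have h2 : 1 < Fintype.card V := by
    have : ((1 : ℕ) : ℝ) < (Fintype.card V : ℝ) := by
      have h3 : nn V = (Fintype.card V : ℝ) := rfl
      rw [← h3]
      push_cast
      have : (1 : ℝ) < 10 ^ 12 := by norm_num
      linarith
    exact_mod_cast this
  have := Fintype.one_lt_card_iff_nontrivial.1 h2
  exact exists_ne v

theorem case3 (h : PC l psi part s U K) {a b c : Fin r} (hab : a ≠ b) (hac : a ≠ c) (hbc : b ≠ c)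
    (hK : K = {a, b, c}) (n0 : 10 ≤ (ofT l part U {a, b}).card)
    (n1 : 10 ≤ (ofT l part U {a, c}).card)
    (n2 : ofT l part U {b, c} = ∅ ∨ 10 ≤ (ofT l part U {b, c}).card)
    (hbig : 9 / 10 * nn V ≤ ((ofT l part U {a, b}).card : ℝ) + (ofT l part U {a, c}).card +
      (ofT l part U {b, c}).card) : Goal l psi part s := by
  have hM : ∀ v : V, ∃ w, w ≠ v ∧ (v ∈ U → ∀ x y : Fin r, x ≠ y → tp l part v = {x, y} →
      l v w = mn l v) := by
    intro v
    by_cases hv : v ∈ U ∧ ∃ x y : Fin r, x ≠ y ∧ tp l part v = {x, y}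
    · obtain ⟨hvU, x, y, hxy, ht⟩ := hv
      obtain ⟨w, hw, hlw⟩ := exists_mn h hvU hxy ht
      exact ⟨w, hw, fun _ _ _ _ _ => hlw⟩
    · obtain ⟨w, hw⟩ := exists_other h v
      exact ⟨w, hw, fun h1 x y hxy ht => absurd ⟨h1, x, y, hxy, ht⟩ hv⟩
  choose M hM1 hM2 using hM
  set T : Fin 3 → Finset (Fin r) := ![{a, b}, {a, c}, {b, c}] with hT
  have T0 : T 0 = {a, b} := rfl
  have T1 : T 1 = {a, c} := rfl
  have T2 : T 2 = {b, c} := rfl
  have hsh := share hab hac hbc T T0 T1 T2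
  have hTne : ∀ i j, i ≠ j → T i ≠ T j := by
    intro i j hij hcon
    obtain ⟨x, y, z, hxy, hxz, hyz, -, e1, e2⟩ := hsh i j hij
    rw [e1, e2] at hcon
    have : y ∈ ({x, z} : Finset (Fin r)) := by rw [← hcon]; simp
    rw [Finset.mem_insert, Finset.mem_singleton] at this
    rcases this with h1 | h1
    · exact hxy h1.symm
    · exact hyz h1
  obtain ⟨i, j, hij, v0, hv0, v1, hv1, h1, h2, h3⟩ := selection' (l := l) h.bdd
    (fun i => ofT l part U (T i)) (by
      intro i j hij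
      rw [Finset.disjoint_left]
      intro v hv hv'
      unfold ofT at hv hv'
      rw [Finset.mem_filter] at hv hv'
      exact hTne i j hij (hv.2.symm.trans hv'.2))
    (by
      intro i
      fin_cases i
      · exact Or.inr n0
      · exact Or.inr n1
      · exact n2)
    ⟨0, 1, by decide, by
      intro h0
      have h0' : ofT l part U {a, b} = ∅ := h0
      rw [h0'] at n0
      simp at n0, by
      intro h0
      have h0' : ofT l part U {a, c} = ∅ := h0
      rw [h0'] at n1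
      simp at n1⟩
    (by
      rw [Fin.sum_univ_three]
      have h5 := PC_nn h
      have h6 : (T 0) = {a, b} := rfl
      rw [T0, T1, T2]
      linarith) M hM1
  unfold ofT at hv0 hv1
  rw [Finset.mem_filter] at hv0 hv1
  obtain ⟨x, y, z, hxy, hxz, hyz, hKK, e1, e2⟩ := hsh i j hij
  have t0 := hv0.2.trans e1
  have t1 := hv1.2.trans e2
  have h01 : v0 ≠ v1 := by
    intro h0
    rw [h0] at hv0
    exact hTne i j hij (hv0.2.symm.trans hv1.2)
  have l0 := hM2 v0 hv0.1 x y hxy t0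
  have l1 := hM2 v1 hv1.1 x z hxz t1
  by_cases hw : M v0 = M v1
  · have h4 : l (M v0) v0 ≠ l (M v0) v1 := by
      rcases h3 with h3 | h3
      · exact absurd hw h3
      · exact h3
    exact case3_hub h hxy hxz hyz (hK.trans hKK) hv0.1 hv1.1 t0 t1 h01 (hM1 v0)
      h1 l0 (by rw [hw]; exact l1) h4
  · exact case3_disj h hxy hxz hyz (hK.trans hKK) hv0.1 hv1.1 t0 t1 h01 (hM1 v0) (hM1 v1) l0 l1
      h1 h2 hw

theorem case_P (h : PC l psi part s U K) (hP : PCase l part U K) :
    ∃ (BadV : Finset V) (CS : Conf V) (kap : V × Bool → Fin r), Sol l psi part BadV CS kap ∧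
      (BadV.card : ℝ) ≤ 2000 * s * nn V := by
  rcases hP with ⟨a, hK⟩ | ⟨a, b, hab, hK, v, hv⟩ | ⟨a, b, c, hab, hac, hbc, hK, n0, n1, n2, hbig⟩
  · exact case1 h hK
  · unfold ofT at hv
    rw [Finset.mem_filter] at hv
    exact case2 h hab hK hv.1 hv.2
  · exact case3 h hab hac hbc hK n0 n1 n2 hbig

end Pool.H86BX
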