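import Pool.Agent.H86.BX.SolP

/-! Building the start from a balanced plan, without and with a hub. -/

set_option autoImplicit false

namespace Pool.H86BX

open Finset Pool.H90BX
open scoped Classical

variable {V : Type} [Fintype V] [DecidableEq V] {r : ℕ} {l : LS V} {psi : Fin r → Fin r}
  {part : V → Lb → Fin r}

/-- assembling a solution from the contributions of the vertices -/
theorem mkSol {BadV : Finset V} {CS : Conf V} {kap : V × Bool → Fin r} (cc : V → Fin r → ℤ)
    (hstart : Start l BadV (mx l) (md l) CS)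
    (hact : ∀ a, a.1 ∈ BadV → CS.sg a = a → Act l psi part a.1 (CS.lab a) (kap a))
    (hout : ∀ v, v ∉ BadV → Typ l psi part v)
    (hin : ∀ v ∈ BadV, (if CS.sg (v, false) = (v, false) then ev (kap (v, false)) else 0) +
      (if CS.sg (v, true) = (v, true) then ev (kap (v, true)) else 0) = cc v)
    (hnorm : ∀ v, v ∉ BadV → ev (lam l part v (mx l v)) + ev (lam l part v (md l v)) = cc v)
    (hb : Bal psi (∑ v, cc v)) : Sol l psi part BadV CS kap := by
  refine ⟨hstart, hact, hout, ?_⟩
  have e1 : ∑ a ∈ univ.filter (fun a : V × Bool => a.1 ∈ BadV ∧ CS.sg a = a), ev (kap a) =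
      ∑ v ∈ BadV, cc v := by
    rw [← Finset.filter_filter, Finset.sum_filter,
      sum_slots (fun v => v ∈ BadV) (fun a => if CS.sg a = a then ev (kap a) else 0)]
    have e0 : univ.filter (fun v => v ∈ BadV) = BadV := by ext v; simp
    rw [e0]
    exact Finset.sum_congr rfl hin
  have e2 : ∑ v ∈ BadVᶜ, (ev (lam l part v (mx l v)) + ev (lam l part v (md l v))) =
      ∑ v ∈ BadVᶜ, cc v :=
    Finset.sum_congr rfl (fun v hv => hnorm v (by simpa using hv))
  rw [e1, e2, Finset.sum_compl_add_sum]
  exact hb

theorem build {E : Finset V} {mate : V → V} {t0 t1 : V → Lb × Fin r}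
    (hE : ∀ v, v ∉ E → Typ l psi part v) (hp : Plan l psi part E mate t0 t1)
    (hb : Bal psi (∑ v, ct mate t0 t1 v)) :
    ∃ (BadV : Finset V) (CS : Conf V) (kap : V × Bool → Fin r), Sol l psi part BadV CS kap ∧
      BadV.card ≤ E.card + (univ.filter (fun v => mate v ≠ v)).card := by
  set CS : Conf V := ⟨fun a => if a.2 = false then (mate a.1, false) else a,
    fun a => if a.2 = false then (if mate a.1 = a.1 then (t0 a.1).1 else l a.1 (mate a.1))
      else (if mate a.1 = a.1 then (t1 a.1).1 else (t0 a.1).1)⟩ with hCS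
  have sgf : ∀ v, CS.sg (v, false) = (mate v, false) := fun v => rfl
  have sgt : ∀ v, CS.sg (v, true) = (v, true) := fun v => rfl
  have labf : ∀ v, CS.lab (v, false) = if mate v = v then (t0 v).1 else l v (mate v) := fun v => rfl
  have labt : ∀ v, CS.lab (v, true) = if mate v = v then (t1 v).1 else (t0 v).1 := fun v => rfl
  set kap : V × Bool → Fin r := fun a => if a.2 = false then (t0 a.1).2 else
    (if mate a.1 = a.1 then (t1 a.1).2 else (t0 a.1).2) with hkap
  have kf : ∀ v, kap (v, false) = (t0 v).2 := fun v => rfl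
  have kt : ∀ v, kap (v, true) = if mate v = v then (t1 v).2 else (t0 v).2 := fun v => rfl
  set BadV : Finset V := E ∪ univ.filter (fun v => mate v ≠ v) with hBad
  have hbad : ∀ v, v ∉ BadV → v ∉ E ∧ mate v = v := by
    intro v hv
    rw [hBad, Finset.mem_union, not_or, Finset.mem_filter] at hv
    refine ⟨hv.1, ?_⟩
    by_contra h
    exact hv.2 ⟨Finset.mem_univ _, h⟩
  have heqf : ∀ v, CS.sg (v, false) = (v, false) ↔ mate v = v := by
    intro v; rw [sgf, Prod.mk.injEq]; simp
  refine ⟨BadV, CS, kap, mkSol (ct mate t0 t1) ?_ ?_ ?_ ?_ ?_ hb, Finset.card_union_le _ _⟩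
  · refine ⟨⟨?_, ?_, ?_, ?_⟩, ?_, ?_, ?_⟩
    · rintro ⟨v, b⟩
      cases b
      · rw [sgf, sgf, hp.inv]
      · rw [sgt, sgt]
    · have key : ∀ v, CS.lab (v, false) ≠ CS.lab (v, true) := by
        intro v
        rw [labf, labt]
        by_cases h : mate v = v
        · rw [if_pos h, if_pos h]; exact hp.ne v h
        · rw [if_neg h, if_neg h]; exact (hp.use v h).symm
      rintro ⟨v, b⟩
      cases b
      · rw [fl_false]; exact key v
      · rw [fl_true]; exact (key v).symm
    · rintro ⟨v, b⟩ h
      cases b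
      · rw [sgf]; exact fun h' => h ((heqf v).2 h')
      · exact absurd (sgt v) h
    · rintro ⟨v, b⟩ h
      cases b
      · rw [labf, sgf, if_neg (fun h' => h ((heqf v).2 h'))]
      · exact absurd (sgt v) h
    · rintro ⟨v, b⟩ h
      cases b
      · exact (heqf v).2 (hbad v h).2
      · exact sgt v
    · intro v _
      exact ⟨v, Relation.ReflTransGen.refl, true, sgt v⟩
    · intro v hv
      obtain ⟨h1, h2⟩ := hbad v hv
      have h3 := hp.std v h1 h2
      rw [labf, labt, if_pos h2, if_pos h2, h3.1, h3.2]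
      exact ⟨rfl, rfl⟩
  · rintro ⟨v, b⟩ _ hs
    cases b
    · have h := (heqf v).1 hs
      rw [labf, if_pos h, kf]
      exact hp.tok0 v
    · rw [labt, kt]
      by_cases h : mate v = v
      · rw [if_pos h, if_pos h]; exact hp.tok1 v h
      · rw [if_neg h, if_neg h]; exact hp.tok0 v
  · intro v hv
    exact hE v (hbad v hv).1
  · intro v _
    rw [if_pos (sgt v), kf, kt]
    unfold ct
    by_cases h : mate v = v
    · rw [if_pos ((heqf v).2 h), if_pos h, if_pos h]
    · rw [if_neg (fun h' => h ((heqf v).1 h')), if_neg h, if_neg h, zero_add]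
  · intro v hv
    obtain ⟨h1, h2⟩ := hbad v hv
    have h3 := hp.std v h1 h2
    unfold ct
    rw [if_pos h2, h3.1, h3.2]

theorem build_hub {E : Finset V} {mate : V → V} {t0 t1 : V → Lb × Fin r}
    (hE : ∀ v, v ∉ E → Typ l psi part v) (hp : Plan l psi part E mate t0 t1) (w v : V)
    (hw : mate w ≠ w) (hv : mate v = v) (hlab : l w v ≠ l w (mate w)) (hlab2 : (t0 v).1 ≠ l v w)
    (hb : Bal psi (∑ v, ct mate t0 t1 v - ev (t0 w).2 - ev (t1 v).2)) :
    ∃ (BadV : Finset V) (CS : Conf V) (kap : V × Bool → Fin r), Sol l psi part BadV CS kap ∧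
      BadV.card ≤ E.card + (univ.filter (fun v => mate v ≠ v)).card + 1 := by
  have hvw : v ≠ w := fun h => hw (h ▸ hv)
  set CS : Conf V := ⟨fun a => if a.2 = false then (mate a.1, false) else
      (if a.1 = w then (v, true) else if a.1 = v then (w, true) else a),
    fun a => if a.2 = false then (if mate a.1 = a.1 then (t0 a.1).1 else l a.1 (mate a.1))
      else (if a.1 = w then l w v else if a.1 = v then l v w else
        if mate a.1 = a.1 then (t1 a.1).1 else (t0 a.1).1)⟩ with hCS
  have sgf : ∀ x, CS.sg (x, false) = (mate x, false) := fun x => rfl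
  have sgt : ∀ x, CS.sg (x, true) = if x = w then (v, true) else if x = v then (w, true) else
    (x, true) := fun x => rfl
  have sgtw : CS.sg (w, true) = (v, true) := by rw [sgt, if_pos rfl]
  have sgtv : CS.sg (v, true) = (w, true) := by rw [sgt, if_neg hvw, if_pos rfl]
  have sgto : ∀ x, x ≠ w → x ≠ v → CS.sg (x, true) = (x, true) := fun x h1 h2 => by
    rw [sgt, if_neg h1, if_neg h2]
  have labf : ∀ x, CS.lab (x, false) = if mate x = x then (t0 x).1 else l x (mate x) := fun x => rfl
  have labt : ∀ x, CS.lab (x, true) = if x = w then l w v else if x = v then l v w else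
    if mate x = x then (t1 x).1 else (t0 x).1 := fun x => rfl
  set kap : V × Bool → Fin r := fun a => if a.2 = false then (t0 a.1).2 else
    (if mate a.1 = a.1 then (t1 a.1).2 else (t0 a.1).2) with hkap
  have kf : ∀ x, kap (x, false) = (t0 x).2 := fun x => rfl
  have kt : ∀ x, kap (x, true) = if mate x = x then (t1 x).2 else (t0 x).2 := fun x => rfl
  set BadV : Finset V := insert v (E ∪ univ.filter (fun v => mate v ≠ v)) with hBad
  have hbad : ∀ x, x ∉ BadV → x ∉ E ∧ mate x = x ∧ x ≠ v ∧ x ≠ w := by
    intro x hx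
    rw [hBad, Finset.mem_insert, Finset.mem_union, not_or, not_or, Finset.mem_filter] at hx
    have h1 : mate x = x := by
      by_contra h
      exact hx.2.2 ⟨Finset.mem_univ _, h⟩
    exact ⟨hx.2.1, h1, hx.1, fun h => hw (h ▸ h1)⟩
  have heqf : ∀ x, CS.sg (x, false) = (x, false) ↔ mate x = x := by
    intro x; rw [sgf, Prod.mk.injEq]; simp
  have hneT : ∀ x, x = w ∨ x = v → CS.sg (x, true) ≠ (x, true) := by
    rintro x (rfl | rfl)
    · rw [sgtw]; intro h; exact hvw (Prod.mk.inj h).1
    · rw [sgtv]; intro h; exact hvw (Prod.mk.inj h).1.symm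
  refine ⟨BadV, CS, kap, mkSol (fun x => ct mate t0 t1 x - (if x = w then ev (t0 w).2 else 0) -
    (if x = v then ev (t1 v).2 else 0)) ?_ ?_ ?_ ?_ ?_ ?_, ?_⟩
  · refine ⟨⟨?_, ?_, ?_, ?_⟩, ?_, ?_, ?_⟩
    · rintro ⟨x, b⟩
      cases b
      · rw [sgf, sgf, hp.inv]
      · by_cases h1 : x = w
        · rw [h1, sgtw, sgtv]
        · by_cases h2 : x = v
          · rw [h2, sgtv, sgtw]
          · rw [sgto x h1 h2, sgto x h1 h2]
    · have key : ∀ x, CS.lab (x, false) ≠ CS.lab (x, true) := by
        intro x
        rw [labf, labt]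
        by_cases h1 : x = w
        · subst h1
          rw [if_neg hw, if_pos rfl]; exact hlab.symm
        · by_cases h2 : x = v
          · subst h2
            rw [if_pos hv, if_neg h1, if_pos rfl]; exact hlab2
          · rw [if_neg h1, if_neg h2]
            by_cases h : mate x = x
            · rw [if_pos h, if_pos h]; exact hp.ne x h
            · rw [if_neg h, if_neg h]; exact (hp.use x h).symm
      rintro ⟨x, b⟩
      cases b
      · rw [fl_false]; exact key x
      · rw [fl_true]; exact (key x).symm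
    · rintro ⟨x, b⟩ h
      cases b
      · rw [sgf]; exact fun h' => h ((heqf x).2 h')
      · by_cases h1 : x = w
        · rw [h1, sgtw]; exact hvw
        · by_cases h2 : x = v
          · rw [h2, sgtv]; exact hvw.symm
          · exact absurd (sgto x h1 h2) h
    · rintro ⟨x, b⟩ h
      cases b
      · rw [labf, sgf, if_neg (fun h' => h ((heqf x).2 h'))]
      · by_cases h1 : x = w
        · rw [h1, sgtw, labt, if_pos rfl]
        · by_cases h2 : x = v
          · rw [h2, sgtv, labt, if_neg hvw, if_pos rfl]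
          · exact absurd (sgto x h1 h2) h
    · rintro ⟨x, b⟩ h
      obtain ⟨_, h2, h3, h4⟩ := hbad x h
      cases b
      · exact (heqf x).2 h2
      · exact sgto x h4 h3
    · intro x _
      by_cases h1 : x = w
      · refine ⟨v, Relation.ReflTransGen.single ?_, false, (heqf v).2 hv⟩
        refine ⟨true, ?_, ?_⟩
        · rw [h1]; exact hneT w (Or.inl rfl)
        · rw [h1, sgtw]
      · by_cases h2 : x = v
        · exact ⟨x, Relation.ReflTransGen.refl, false, (heqf x).2 (by rw [h2]; exact hv)⟩
        · exact ⟨x, Relation.ReflTransGen.refl, true, sgto x h1 h2⟩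
    · intro x hx
      obtain ⟨h1, h2, h3, h4⟩ := hbad x hx
      have h5 := hp.std x h1 h2
      rw [labf, labt, if_pos h2, if_neg h4, if_neg h3, if_pos h2, h5.1, h5.2]
      exact ⟨rfl, rfl⟩
  · rintro ⟨x, b⟩ _ hs
    cases b
    · have h := (heqf x).1 hs
      rw [labf, if_pos h, kf]
      exact hp.tok0 x
    · have h1 : x ≠ w := fun h => hneT x (Or.inl h) hs
      have h2 : x ≠ v := fun h => hneT x (Or.inr h) hs
      rw [labt, kt, if_neg h1, if_neg h2]
      by_cases h : mate x = x
      · rw [if_pos h, if_pos h]; exact hp.tok1 x h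
      · rw [if_neg h, if_neg h]; exact hp.tok0 x
  · intro x hx
    exact hE x (hbad x hx).1
  · intro x _
    unfold ct
    by_cases h1 : x = w
    · subst h1
      rw [if_neg (fun h' => hw ((heqf x).1 h')), if_neg (hneT x (Or.inl rfl)), if_neg hw,
        if_pos rfl, if_neg (Ne.symm hvw)]
      simp
    · by_cases h2 : x = v
      · subst h2
        rw [if_pos ((heqf x).2 hv), if_neg (hneT x (Or.inr rfl)), if_pos hv, if_neg h1, if_pos rfl, kf]
        simp
      · rw [if_pos (sgto x h1 h2), if_neg h1, if_neg h2, kf, kt]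
        by_cases h : mate x = x
        · rw [if_pos ((heqf x).2 h), if_pos h, if_pos h]; simp
        · rw [if_neg (fun h' => h ((heqf x).1 h')), if_neg h, if_neg h]; simp
  · intro x hx
    obtain ⟨h1, h2, h3, h4⟩ := hbad x hx
    have h5 := hp.std x h1 h2
    unfold ct
    rw [if_pos h2, if_neg h4, if_neg h3, h5.1, h5.2]
    simp
  · rw [Finset.sum_sub_distrib, Finset.sum_sub_distrib, Finset.sum_ite_eq', Finset.sum_ite_eq']
    simpa using hb
  · exact (Finset.card_insert_le _ _).trans (Nat.succ_le_succ (Finset.card_union_le _ _))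

end Pool.H86BX
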