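import Mathlib

/-! Selection lemma (paper J0). -/

set_option autoImplicit false

namespace Pool.H86BX

open Finset
open scoped Classical

/-- two gadgets of different types can be chosen without conflict -/
theorem selection {V β ι : Type} [Fintype V] (l : V → V → β) (X : ι → Finset V)
    (h2 : ∀ i : ι, ∃ j, j ≠ i) (hne : Nonempty ι) (hX : ∀ i, 6 ≤ (X i).card)
    (hdis : ∀ i j, i ≠ j → Disjoint (X i) (X j)) (M : V → V → Prop)
    (hM : ∀ v, ∃ w, w ≠ v ∧ M v w)
    (hbig : ∀ h c, (univ.filter (fun v => (∃ i, v ∈ X i) ∧ v ≠ h ∧ l h v = c)).card + 4 <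
      (univ.filter (fun v => ∃ i, v ∈ X i)).card) :
    ∃ i j, i ≠ j ∧ ∃ v0 ∈ X i, ∃ v1 ∈ X j, v0 ≠ v1 ∧ ∃ w0 w1, w0 ≠ v0 ∧ M v0 w0 ∧ w1 ≠ v1 ∧
      M v1 w1 ∧ w0 ≠ v1 ∧ w1 ≠ v0 ∧ (w0 ≠ w1 ∨ l w0 v0 ≠ l w0 v1) := by
  by_contra hcon
  choose w hwv hwM using hM
  -- the basic exchange property
  have key : ∀ i j, i ≠ j → ∀ v ∈ X i, ∀ v' ∈ X j, w v ≠ v' → w v' ≠ v →
      w v = w v' ∧ l (w v) v = l (w v) v' := by
    intro i j hij v hv v' hv' h1 h2
    have hvv : v ≠ v' := fun h => (Finset.disjoint_left.1 (hdis i j hij)) hv (h ▸ hv')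
    by_contra h3
    apply hcon
    refine ⟨i, j, hij, v, hv, v', hv', hvv, w v, w v', hwv v, hwM v, hwv v', hwM v', h1, h2, ?_⟩
    by_contra h4
    push Not at h4
    exact h3 h4
  obtain ⟨i⟩ := hne
  obtain ⟨j, hji⟩ := h2 i
  obtain ⟨A, hAX, hA⟩ := Finset.exists_subset_card_eq (show 3 ≤ (X i).card from le_trans (by norm_num) (hX i))
  obtain ⟨a1, a2, a3, h12, h13, h23, rfl⟩ := Finset.card_eq_three.1 hA
  have ha1 : a1 ∈ X i := hAX (by simp)
  have ha2 : a2 ∈ X i := hAX (by simp)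
  have ha3 : a3 ∈ X i := hAX (by simp)
  set E : Finset V := {w a1, w a2, w a3} with hE
  have hEcard : E.card ≤ 3 := Finset.card_le_three
  -- two of the three are comparable with v'
  have two : ∀ j', j' ≠ i → ∀ v' ∈ X j', v' ∉ E →
      (w a1 = w v' ∧ l (w v') a1 = l (w v') v' ∧ w a2 = w v' ∧ l (w v') a2 = l (w v') v') ∨
      (w a1 = w v' ∧ l (w v') a1 = l (w v') v' ∧ w a3 = w v' ∧ l (w v') a3 = l (w v') v') ∨
      (w a2 = w v' ∧ l (w v') a2 = l (w v') v' ∧ w a3 = w v' ∧ l (w v') a3 = l (w v') v') := by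
    intro j' hj' v' hv' hvE
    have hne1 : w a1 ≠ v' := fun h => hvE (by rw [← h, hE]; simp)
    have hne2 : w a2 ≠ v' := fun h => hvE (by rw [← h, hE]; simp)
    have hne3 : w a3 ≠ v' := fun h => hvE (by rw [← h, hE]; simp)
    have k1 : w v' ≠ a1 → w a1 = w v' ∧ l (w v') a1 = l (w v') v' := by
      intro h
      have := key i j' hj'.symm a1 ha1 v' hv' hne1 h
      refine ⟨this.1, ?_⟩
      rw [← this.1]; exact this.2
    have k2 : w v' ≠ a2 → w a2 = w v' ∧ l (w v') a2 = l (w v') v' := by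
      intro h
      have := key i j' hj'.symm a2 ha2 v' hv' hne2 h
      refine ⟨this.1, ?_⟩
      rw [← this.1]; exact this.2
    have k3 : w v' ≠ a3 → w a3 = w v' ∧ l (w v') a3 = l (w v') v' := by
      intro h
      have := key i j' hj'.symm a3 ha3 v' hv' hne3 h
      refine ⟨this.1, ?_⟩
      rw [← this.1]; exact this.2
    by_cases e1 : w v' = a1
    · have e2 : w v' ≠ a2 := fun h => h12 (e1.symm.trans h)
      have e3 : w v' ≠ a3 := fun h => h13 (e1.symm.trans h)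
      exact Or.inr (Or.inr ⟨(k2 e2).1, (k2 e2).2, (k3 e3).1, (k3 e3).2⟩)
    · by_cases e2 : w v' = a2
      · have e3 : w v' ≠ a3 := fun h => h23 (e2.symm.trans h)
        exact Or.inr (Or.inl ⟨(k1 e1).1, (k1 e1).2, (k3 e3).1, (k3 e3).2⟩)
      · exact Or.inl ⟨(k1 e1).1, (k1 e1).2, (k2 e2).1, (k2 e2).2⟩
  -- the hub
  have hXE : 3 ≤ (X j \ E).card := by
    have := Finset.le_card_sdiff E (X j)
    have := hX j
    omega
  obtain ⟨B, hBX, hB⟩ := Finset.exists_subset_card_eq hXE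
  obtain ⟨b1, b2, b3, g12, g13, g23, rfl⟩ := Finset.card_eq_three.1 hB
  have hb1 := Finset.mem_sdiff.1 (hBX (show b1 ∈ ({b1, b2, b3} : Finset V) by simp))
  have hb2 := Finset.mem_sdiff.1 (hBX (show b2 ∈ ({b1, b2, b3} : Finset V) by simp))
  have hb3 := Finset.mem_sdiff.1 (hBX (show b3 ∈ ({b1, b2, b3} : Finset V) by simp))
  have comp : ∀ j', j' ≠ i → ∀ v' ∈ X j', v' ∉ E → w v' = w b1 ∧ l (w b1) v' = l (w b1) b1 := by
    intro j' hj' v' hv' hvE
    have t1 := two j hji b1 hb1.1 hb1.2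
    have t2 := two j' hj' v' hv' hvE
    rcases t1 with ⟨p1, p2, p3, p4⟩ | ⟨p1, p2, p3, p4⟩ | ⟨p1, p2, p3, p4⟩ <;>
    rcases t2 with ⟨q1, q2, q3, q4⟩ | ⟨q1, q2, q3, q4⟩ | ⟨q1, q2, q3, q4⟩ <;>
    grind
  set h := w b1 with hh
  set c := l h b1 with hc
  have compi : ∀ v ∈ X i, v ≠ h → w v = h ∧ l h v = c := by
    intro v hv hvh
    have c2 := comp j hji b2 hb2.1 hb2.2
    have c3 := comp j hji b3 hb3.1 hb3.2
    have m1 : w v ≠ b1 → w v = h ∧ l h v = c := by
      intro e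
      have := key i j hji.symm v hv b1 hb1.1 e (fun e' => hvh e'.symm)
      have h5 := this.2
      rw [this.1] at h5
      exact ⟨this.1, h5⟩
    have m2 : w v ≠ b2 → w v = h ∧ l h v = c := by
      intro e
      have := key i j hji.symm v hv b2 hb2.1 e (by rw [c2.1]; exact fun e' => hvh e'.symm)
      rw [c2.1] at this
      refine ⟨this.1, ?_⟩
      have h5 := this.2
      rw [this.1, c2.2] at h5
      exact h5
    by_cases e : w v = b1
    · exact m2 (fun e' => g12 (e.symm.trans e'))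
    · exact m1 e
  have hsub : univ.filter (fun v => ∃ i, v ∈ X i) ⊆
      (univ.filter (fun v => (∃ i, v ∈ X i) ∧ v ≠ h ∧ l h v = c)) ∪ (insert h E) := by
    intro v hv
    obtain ⟨j', hj'⟩ := (Finset.mem_filter.1 hv).2
    rw [Finset.mem_union, Finset.mem_filter, Finset.mem_insert]
    by_cases e1 : v = h
    · exact Or.inr (Or.inl e1)
    · by_cases e2 : v ∈ E
      · exact Or.inr (Or.inr e2)
      · left
        refine ⟨Finset.mem_univ _, ⟨j', hj'⟩, e1, ?_⟩
        by_cases e3 : j' = i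
        · subst e3
          exact (compi v hj' e1).2
        · exact (comp j' e3 v hj' e2).2
  have h5 := Finset.card_le_card hsub
  have h6 := Finset.card_union_le (univ.filter (fun v => (∃ i, v ∈ X i) ∧ v ≠ h ∧ l h v = c)) (insert h E)
  have h7 := Finset.card_insert_le h E
  have h8 := hbig h c
  omega

end Pool.H86BX
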