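import Pool.Agent.H86.BX.Build
import Pool.Agent.H86.BX.Sel

/-! Selection lemma in the form of SB.lean, and case P. -/

set_option autoImplicit false

namespace Pool.H86BX

open Finset Pool.H90BX
open scoped Classical

variable {V : Type} [Fintype V] [DecidableEq V] {r : ℕ} {l : LS V} {psi : Fin r → Fin r}
  {part : V → Lb → Fin r}

theorem selection' (hl : Bdd l) {k : ℕ} (X : Fin k → Finset V)
    (hdis : ∀ i j, i ≠ j → Disjoint (X i) (X j)) (h10 : ∀ i, X i = ∅ ∨ 10 ≤ (X i).card)
    (h2 : ∃ i j, i ≠ j ∧ X i ≠ ∅ ∧ X j ≠ ∅)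
    (hbig : nn V / 2 + 20 ≤ ∑ i, ((X i).card : ℝ)) (M : V → V) (hM : ∀ v, M v ≠ v) :
    ∃ i j, i ≠ j ∧ ∃ v0 ∈ X i, ∃ v1 ∈ X j, M v0 ≠ v1 ∧ M v1 ≠ v0 ∧
      (M v0 ≠ M v1 ∨ l (M v0) v0 ≠ l (M v0) v1) := by
  obtain ⟨i0, j0, hij, hi0, hj0⟩ := h2
  have hsel := Pool.H86BX.selection l (fun i : {i : Fin k // X i ≠ ∅} => X i.1)
    (fun i => by
      by_cases h : i.1 = i0
      · exact ⟨⟨j0, hj0⟩, fun h' => hij (by rw [← h, ← h'])⟩
      · exact ⟨⟨i0, hi0⟩, fun h' => h (by rw [← h'])⟩)
    ⟨⟨i0, hi0⟩⟩ (fun i => by rcases h10 i.1 with h | h; exacts [absurd h i.2, by omega])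
    (fun i j h => hdis i.1 j.1 (fun h' => h (Subtype.ext h')))
    (fun v w => w = M v) (fun v => ⟨M v, hM v, rfl⟩) (fun h c => ?_)
  · obtain ⟨i, j, hij', v0, hv0, v1, hv1, -, w0, w1, -, h3, -, h4, h5, h6, h7⟩ := hsel
    subst h3 h4
    exact ⟨i.1, j.1, fun h => hij' (Subtype.ext h), v0, hv0, v1, hv1, h5, h6, h7⟩
  · have h3 : (univ.filter (fun v => (∃ i : {i : Fin k // X i ≠ ∅}, v ∈ X i.1) ∧ v ≠ h ∧
        l h v = c)).card ≤ cnt l h c := by
      refine Finset.card_le_card ?_
      intro v hv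
      have := (Finset.mem_filter.1 hv).2
      exact mem_cls.2 this.2
    have h4 : (univ.filter (fun v => ∃ i : {i : Fin k // X i ≠ ∅}, v ∈ X i.1)).card =
        ∑ i, (X i).card := by
      rw [← Finset.card_biUnion (fun i _ j _ h => hdis i j h)]
      congr 1
      ext v
      simp only [Finset.mem_filter, Finset.mem_univ, true_and, Finset.mem_biUnion]
      constructor
      · rintro ⟨i, hi⟩; exact ⟨i.1, hi⟩
      · rintro ⟨i, hi⟩
        exact ⟨⟨i, Finset.nonempty_iff_ne_empty.1 ⟨v, hi⟩⟩, hi⟩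
    have h5 := two_cnt hl h c
    have h6 : (Fintype.card V : ℝ) / 2 + 20 ≤ ((∑ i, (X i).card : ℕ) : ℝ) := by
      push_cast; exact hbig
    have h7 : Fintype.card V + 40 ≤ 2 * ∑ i, (X i).card := by
      have h8 : ((Fintype.card V + 40 : ℕ) : ℝ) ≤ ((2 * ∑ i, (X i).card : ℕ) : ℝ) := by
        push_cast
        push_cast at h6
        linarith
      exact_mod_cast h8
    have h9 : cnt l h c + 4 < (univ.filter (fun v => ∃ i : {i : Fin k // X i ≠ ∅},
        v ∈ X i.1)).card := by omega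
    have h10 := lt_of_le_of_lt (Nat.add_le_add_right h3 4) h9
    refine lt_of_le_of_lt ?_ (lt_of_lt_of_le h10 ?_)
    · refine Nat.add_le_add_right (Finset.card_le_card ?_) 4
      intro v hv
      simp only [Finset.mem_filter, Finset.mem_univ, true_and] at hv ⊢
      exact hv
    · refine Finset.card_le_card ?_
      intro v hv
      simp only [Finset.mem_filter, Finset.mem_univ, true_and] at hv ⊢
      exact hv

/-! total number of tokens -/

/-- total -/
def tot (c : Fin r → ℤ) : ℤ := ∑ A, c A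

theorem tot_add (c d : Fin r → ℤ) : tot (c + d) = tot c + tot d := by
  unfold tot; rw [← Finset.sum_add_distrib]; rfl

theorem tot_ev (A : Fin r) : tot (ev A) = 1 := by
  unfold tot
  simp [ev_apply]

theorem tot_sum {α : Type} (S : Finset α) (f : α → Fin r → ℤ) :
    tot (∑ a ∈ S, f a) = ∑ a ∈ S, tot (f a) := by
  unfold tot
  rw [Finset.sum_comm]
  exact Finset.sum_congr rfl (fun A _ => Finset.sum_apply _ _ _)

/-- supported on K -/
def SuppK (K : Finset (Fin r)) (c : Fin r → ℤ) : Prop := ∀ A, A ∉ K → c A = 0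

theorem SuppK.add {K : Finset (Fin r)} {c d : Fin r → ℤ} (hc : SuppK K c) (hd : SuppK K d) :
    SuppK K (c + d) := fun A hA => by rw [Pi.add_apply, hc A hA, hd A hA]; rfl

theorem suppK_ev {K : Finset (Fin r)} {A : Fin r} (hA : A ∈ K) : SuppK K (ev A) := fun B hB => by
  rw [ev_apply, if_neg (fun h : B = A => hB (by rw [h]; exact hA))]

theorem suppK_sum {α : Type} {K : Finset (Fin r)} (S : Finset α) (f : α → Fin r → ℤ)
    (h : ∀ a ∈ S, SuppK K (f a)) : SuppK K (∑ a ∈ S, f a) := fun A hA => by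
  rw [Finset.sum_apply]
  exact Finset.sum_eq_zero (fun a ha => h a ha A hA)

theorem tot_supp {K : Finset (Fin r)} {c : Fin r → ℤ} (hc : SuppK K c) : tot c = ∑ A ∈ K, c A :=
  (Finset.sum_subset (Finset.subset_univ K) (fun A _ hA => hc A hA)).symm

theorem bal_K (hpsi : ∀ A, psi (psi A) = A) {K : Finset (Fin r)} (hK : ∀ A ∈ K, psi A = A)
    {c : Fin r → ℤ} (hc : SuppK K c) (he : ∀ A ∈ K, Even (c A)) : Bal psi c := by
  intro A
  by_cases h : A ∈ K
  · rw [hK A h]; exact ⟨rfl, fun _ => he A h⟩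
  · have h2 : psi A ∉ K := fun h' => h (by have := hK _ h'; rw [hpsi] at this; rw [this]; exact h')
    rw [hc A h, hc _ h2]
    exact ⟨rfl, fun _ => ⟨0, rfl⟩⟩

/-! the setting -/

variable {s : ℝ} {U : Finset V} {K : Finset (Fin r)}

theorem PC_kin (h : PC l psi part s U K) {w : V} (hw : w ∈ U) (j : Lb) : lam l part w j ∈ K := by
  by_cases hj : j = mx l w
  · rw [hj]; exact (h.kin w hw).1
  · rw [lam_of_ne l part w hj, ← lam_md l part w]; exact (h.kin w hw).2

theorem PC_nn (h : PC l psi part s U K) : (10 : ℝ) ^ 12 ≤ nn V := by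
  have h1 := h.large; have h2 := h.s1; have h3 := h.s0
  have h4 : s * nn V ≤ 1 / 10 ^ 9 * nn V := by
    have : 0 ≤ nn V := by unfold nn; positivity
    exact mul_le_mul_of_nonneg_right h2 this
  nlinarith

theorem PC_cls (h : PC l psi part s U K) {v : V} {i : Lb} (hi : i = mx l v ∨ i = md l v) :
    nn V / 4 - 1 ≤ ((cls l v i).card : ℝ) := by
  have h1 : NN V / 4 ≤ (cnt l v i : ℝ) := by
    rcases hi with rfl | rfl
    · exact mx_ge h.bdd v
    · exact md_ge h.bdd v
  have h2 := nn_eq V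
  have h3 : (cnt l v i : ℝ) = ((cls l v i).card : ℝ) := rfl
  linarith

theorem act_U (h : PC l psi part s U K) {v : V} (hv : v ∈ U) {i : Lb}
    (hi : i = mx l v ∨ i = md l v) : Act l psi part v i (lam l part v i) := by
  unfold Act
  set Ir := univ.filter (fun w : V => w ≠ v ∧ ¬ Reg l psi part v w) with hIr
  have h1 : (cls l v i) \ Ir ⊆ univ.filter (fun w : V => w ≠ v ∧ l v w = i ∧
      ∃ k, k ≠ l w v ∧ (k = mx l w ∨ k = md l w) ∧ part w k = psi (lam l part v i)) := by
    intro w hw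
    rw [Finset.mem_sdiff, mem_cls, hIr, Finset.mem_filter] at hw
    obtain ⟨⟨hwv, hlab⟩, hreg⟩ := hw
    have hreg' : Reg l psi part v w := by
      by_contra hcon
      exact hreg ⟨Finset.mem_univ _, hwv, hcon⟩
    refine Finset.mem_filter.2 ⟨Finset.mem_univ _, hwv, hlab, Rl l w (l w v), Rl_ne l w _,
      Rl_mem l w _, ?_⟩
    have h2 : lam l part w (l w v) = psi (lam l part v (l v w)) := hreg'
    rw [hlab] at h2
    exact h2
  have h2 := Finset.card_le_card h1
  have h3 := Finset.le_card_sdiff Ir (cls l v i)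
  have h4 : (Ir.card : ℝ) ≤ s * nn V := h.few v hv
  have h5 := PC_cls h hi
  have h6 := PC_nn h
  have h7 : s * nn V ≤ 1 / 10 ^ 9 * nn V :=
    mul_le_mul_of_nonneg_right h.s1 (by linarith)
  have h8 : ((cls l v i).card : ℝ) ≤ (((cls l v i) \ Ir).card : ℝ) + Ir.card := by
    have : (cls l v i).card ≤ ((cls l v i) \ Ir).card + Ir.card := by omega
    exact_mod_cast this
  have h9 : (((cls l v i) \ Ir).card : ℝ) ≤ ((univ.filter (fun w : V => w ≠ v ∧ l v w = i ∧
      ∃ k, k ≠ l w v ∧ (k = mx l w ∨ k = md l w) ∧ part w k = psi (lam l part v i))).card : ℝ) := by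
    exact_mod_cast h2
  linarith

theorem act_any (h : PC l psi part s U K) (u : V) {i : Lb} (hi : i = mx l u ∨ i = md l u) :
    ∃ A ∈ K, Act l psi part u i A := by
  by_contra hcon
  push Not at hcon
  set S := (cls l u i) ∩ U with hS
  have h1 : ∀ A ∈ K, ((S.filter (fun w => lam l part w (l w u) = A)).card : ℝ) ≤ nn V / 8000 := by
    intro A hA
    have h2 := hcon A hA
    unfold Act at h2
    rw [not_le] at h2
    refine le_trans ?_ h2.le
    have h3 : S.filter (fun w => lam l part w (l w u) = A) ⊆ univ.filter (fun w : V => w ≠ u ∧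
        l u w = i ∧ ∃ k, k ≠ l w u ∧ (k = mx l w ∨ k = md l w) ∧ part w k = psi A) := by
      intro w hw
      rw [Finset.mem_filter, hS, Finset.mem_inter, mem_cls] at hw
      refine Finset.mem_filter.2 ⟨Finset.mem_univ _, hw.1.1.1, hw.1.1.2, Rl l w (l w u), Rl_ne l w _,
        Rl_mem l w _, ?_⟩
      rw [h.kfix A hA]
      exact hw.2
    exact_mod_cast Finset.card_le_card h3
  have h2 : S.card = ∑ A ∈ K, (S.filter (fun w => lam l part w (l w u) = A)).card :=
    Finset.card_eq_sum_card_fiberwise (fun w hw => by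
      have hw' : w ∈ S := hw
      rw [hS, Finset.mem_inter] at hw'
      exact PC_kin h hw'.2 _)
  have h3 : (S.card : ℝ) ≤ 3 * (nn V / 8000) := by
    rw [h2]
    push_cast
    calc ∑ A ∈ K, ((S.filter (fun w => lam l part w (l w u) = A)).card : ℝ)
        ≤ ∑ A ∈ K, nn V / 8000 := Finset.sum_le_sum h1
      _ = K.card * (nn V / 8000) := by rw [Finset.sum_const, nsmul_eq_mul]
      _ ≤ 3 * (nn V / 8000) := by
          refine mul_le_mul_of_nonneg_right ?_ ?_
          · exact_mod_cast h.kcard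
          · have : 0 ≤ nn V := by unfold nn; positivity
            positivity
  have h4 : (cls l u i).card ≤ S.card + (Uᶜ).card := by
    have : cls l u i ⊆ S ∪ Uᶜ := by
      intro w hw
      rw [Finset.mem_union, hS, Finset.mem_inter, Finset.mem_compl]
      tauto
    exact (Finset.card_le_card this).trans (Finset.card_union_le _ _)
  have h5 := PC_cls h hi
  have h6 := PC_nn h
  have h7 : s * nn V ≤ 1 / 10 ^ 9 * nn V :=
    mul_le_mul_of_nonneg_right h.s1 (by linarith)
  have h8 := h.big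
  have h9 : ((cls l u i).card : ℝ) ≤ (S.card : ℝ) + (Uᶜ).card := by exact_mod_cast h4
  linarith

theorem PC_typ (h : PC l psi part s U K) {v : V} (hv : v ∈ U) : Typ l psi part v := by
  refine ⟨act_U h hv (Or.inl rfl), act_U h hv (Or.inr rfl), fun hne => ?_⟩
  rcases h.bdd.2 v with h3 | h4
  · exact h3
  · exfalso
    have h5 := h.half v hv hne
    rw [T4_cntR h4] at h5
    have h6 := NN_pos h.bdd v
    have h7 := h.s1
    nlinarith

/-- default acting classes -/
structure Dft (l : LS V) (psi : Fin r → Fin r) (part : V → Lb → Fin r) (U : Finset V)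
    (K : Finset (Fin r)) (a0 a1 : V → Fin r) : Prop where
  act0 : ∀ v, Act l psi part v (mx l v) (a0 v)
  act1 : ∀ v, Act l psi part v (md l v) (a1 v)
  k0 : ∀ v, a0 v ∈ K
  k1 : ∀ v, a1 v ∈ K
  u0 : ∀ v ∈ U, a0 v = lam l part v (mx l v)
  u1 : ∀ v ∈ U, a1 v = lam l part v (md l v)

theorem exists_dft (h : PC l psi part s U K) : ∃ a0 a1 : V → Fin r, Dft l psi part U K a0 a1 := by
  choose A0 hA0 hA0' using fun v => act_any h v (i := mx l v) (Or.inl rfl)
  choose A1 hA1 hA1' using fun v => act_any h v (i := md l v) (Or.inr rfl)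
  refine ⟨fun v => if v ∈ U then lam l part v (mx l v) else A0 v,
    fun v => if v ∈ U then lam l part v (md l v) else A1 v, ?_, ?_, ?_, ?_, ?_, ?_⟩
  · intro v
    by_cases hv : v ∈ U
    · simp only [if_pos hv]; exact act_U h hv (Or.inl rfl)
    · simp only [if_neg hv]; exact hA0' v
  · intro v
    by_cases hv : v ∈ U
    · simp only [if_pos hv]; exact act_U h hv (Or.inr rfl)
    · simp only [if_neg hv]; exact hA1' v
  · intro v
    by_cases hv : v ∈ U
    · simp only [if_pos hv]; exact (h.kin v hv).1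
    · simp only [if_neg hv]; exact hA0 v
  · intro v
    by_cases hv : v ∈ U
    · simp only [if_pos hv]; exact (h.kin v hv).2
    · simp only [if_neg hv]; exact hA1 v
  · intro v hv; simp only [if_pos hv]
  · intro v hv; simp only [if_pos hv]

section plan

variable {a0 a1 : V → Fin r}

/-- default token at w when the label j is used -/
noncomputable def dt (l : LS V) (a0 a1 : V → Fin r) (w : V) (j : Lb) : Lb × Fin r :=
  if j = mx l w then (md l w, a1 w) else (mx l w, a0 w)

theorem dt_ne (w : V) (j : Lb) : (dt l a0 a1 w j).1 ≠ j := by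
  unfold dt
  split_ifs with h
  · rw [h]; exact (mx_ne_md l w).symm
  · exact Ne.symm h

theorem dt_act (hd : Dft l psi part U K a0 a1) (w : V) (j : Lb) :
    Act l psi part w (dt l a0 a1 w j).1 (dt l a0 a1 w j).2 := by
  unfold dt
  split_ifs
  · exact hd.act1 w
  · exact hd.act0 w

theorem dt_K (hd : Dft l psi part U K a0 a1) (w : V) (j : Lb) : (dt l a0 a1 w j).2 ∈ K := by
  unfold dt
  split_ifs
  · exact hd.k1 w
  · exact hd.k0 w

theorem mkPlan (hd : Dft l psi part U K a0 a1) (S : Finset V) (mate : V → V)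
    (t0 t1 : V → Lb × Fin r) (hinv : ∀ v, mate (mate v) = v)
    (hS : ∀ x, x ∉ S → mate x = x ∧ t0 x = (mx l x, a0 x) ∧ t1 x = (md l x, a1 x))
    (h0 : ∀ x ∈ S, Act l psi part x (t0 x).1 (t0 x).2)
    (h1 : ∀ x ∈ S, mate x = x → Act l psi part x (t1 x).1 (t1 x).2 ∧ (t0 x).1 ≠ (t1 x).1)
    (h2 : ∀ x ∈ S, mate x ≠ x → (t0 x).1 ≠ l x (mate x)) :
    Plan l psi part (Uᶜ ∪ S) mate t0 t1 := by
  refine ⟨hinv, ?_, ?_, ?_, ?_, ?_⟩
  · intro v
    by_cases hv : v ∈ S
    · exact h0 v hv
    · rw [(hS v hv).2.1]; exact hd.act0 v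
  · intro v hm
    by_cases hv : v ∈ S
    · exact (h1 v hv hm).1
    · rw [(hS v hv).2.2]; exact hd.act1 v
  · intro v hm
    by_cases hv : v ∈ S
    · exact (h1 v hv hm).2
    · rw [(hS v hv).2.2, (hS v hv).2.1]; exact mx_ne_md l v
  · intro v hm
    by_cases hv : v ∈ S
    · exact h2 v hv hm
    · exact absurd (hS v hv).1 hm
  · intro v hv _
    rw [Finset.mem_union, not_or, Finset.mem_compl, not_not] at hv
    rw [(hS v hv.2).2.1, (hS v hv.2).2.2, hd.u0 v hv.1, hd.u1 v hv.1]
    exact ⟨rfl, rfl⟩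

/-- total outside the gadget vertices -/
noncomputable def rest (a0 a1 : V → Fin r) (S : Finset V) : Fin r → ℤ :=
  ∑ x ∈ Sᶜ, (ev (a0 x) + ev (a1 x))

theorem rest_supp (hd : Dft l psi part U K a0 a1) (S : Finset V) : SuppK K (rest a0 a1 S) :=
  suppK_sum _ _ (fun x _ => (suppK_ev (hd.k0 x)).add (suppK_ev (hd.k1 x)))

theorem rest_tot (S : Finset V) : Even (tot (rest a0 a1 S)) := by
  unfold rest
  rw [tot_sum]
  refine Finset.even_sum _ (fun x _ => ?_)
  rw [tot_add, tot_ev, tot_ev]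
  exact ⟨1, rfl⟩

theorem sum_ct (S : Finset V) {mate : V → V} {t0 t1 : V → Lb × Fin r}
    (hS : ∀ x, x ∉ S → mate x = x ∧ t0 x = (mx l x, a0 x) ∧ t1 x = (md l x, a1 x)) :
    ∑ x, ct mate t0 t1 x = rest a0 a1 S + ∑ x ∈ S, ct mate t0 t1 x := by
  rw [← Finset.sum_compl_add_sum S]
  congr 1
  refine Finset.sum_congr rfl (fun x hx => ?_)
  have := hS x (by simpa using hx)
  unfold ct
  rw [if_pos this.1, this.2.1, this.2.2]

end plan

/-- labels for the classes of the type -/
theorem tp_label {v : V} {p : Fin r} (hp : p ∈ tp l part v) :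
    ∃ i i', ((i = mx l v ∧ i' = md l v) ∨ (i = md l v ∧ i' = mx l v)) ∧ lam l part v i = p := by
  unfold tp at hp
  rw [Finset.mem_insert, Finset.mem_singleton] at hp
  rcases hp with rfl | rfl
  · exact ⟨_, _, Or.inl ⟨rfl, rfl⟩, rfl⟩
  · exact ⟨_, _, Or.inr ⟨rfl, rfl⟩, rfl⟩

/-- a vertex of a type with two classes has an edge with the label mn -/
theorem exists_mn (h : PC l psi part s U K) {v : V} (hv : v ∈ U) {a b : Fin r} (hab : a ≠ b)
    (ht : tp l part v = {a, b}) : ∃ w, w ≠ v ∧ l v w = mn l v := by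
  have hne : part v (mx l v) ≠ part v (md l v) := by
    intro h1
    have h2 : tp l part v = {part v (mx l v)} := by
      unfold tp; rw [lam_mx, lam_md, h1]; simp
    rw [h2] at ht
    have h3 : a ∈ ({a, b} : Finset (Fin r)) := by simp
    have h4 : b ∈ ({a, b} : Finset (Fin r)) := by simp
    rw [← ht, Finset.mem_singleton] at h3 h4
    exact hab (h3.trans h4.symm)
  have h3 := (PC_typ h hv).2.2 hne
  have h4 := T3_mn_pos h3
  obtain ⟨w, hw⟩ := Finset.card_pos.1 (show 0 < (cls l v (mn l v)).card from h4)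
  exact ⟨w, (mem_cls.1 hw).1, (mem_cls.1 hw).2⟩

/-! parity -/

theorem parity2 {a b : Fin r} (hab : a ≠ b) {R : Fin r → ℤ} (hR : SuppK {a, b} R)
    (ht : Odd (tot R)) : ∃ x, (x = a ∨ x = b) ∧ ∀ A ∈ ({a, b} : Finset (Fin r)),
      Even ((R + ev x) A) := by
  rw [tot_supp hR, Finset.sum_pair hab] at ht
  rcases Int.even_or_odd (R a) with h1 | h1
  · have h2 : Odd (R b) := by
      rcases Int.even_or_odd (R b) with h2 | h2
      · exact absurd (h1.add h2) (Int.not_even_iff_odd.2 ht)
      · exact h2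
    refine ⟨b, Or.inr rfl, ?_⟩
    intro A hA
    rw [Finset.mem_insert, Finset.mem_singleton] at hA
    rcases hA with rfl | rfl
    · rw [Pi.add_apply, ev_apply, if_neg hab, add_zero]; exact h1
    · rw [Pi.add_apply, ev_apply, if_pos rfl]; exact h2.add_one
  · have h2 : Even (R b) := by
      rcases Int.even_or_odd (R b) with h2 | h2
      · exact h2
      · exact absurd (h1.add_odd h2) (Int.not_even_iff_odd.2 ht)
    refine ⟨a, Or.inl rfl, ?_⟩
    intro A hA
    rw [Finset.mem_insert, Finset.mem_singleton] at hA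
    rcases hA with rfl | rfl
    · rw [Pi.add_apply, ev_apply, if_pos rfl]; exact h1.add_one
    · rw [Pi.add_apply, ev_apply, if_neg hab.symm, add_zero]; exact h2

theorem parity3 {x y z : Fin r} (hxy : x ≠ y) (hxz : x ≠ z) (hyz : y ≠ z) {R : Fin r → ℤ}
    (hR : SuppK {x, y, z} R) (ht : Even (tot R)) :
    ∃ p q, (p = x ∨ p = y) ∧ (q = x ∨ q = z) ∧ ∀ A ∈ ({x, y, z} : Finset (Fin r)),
      Even ((R + ev p + ev q) A) := by
  have hsum : tot R = R x + (R y + R z) := by
    rw [tot_supp hR, Finset.sum_insert (by simp [hxy, hxz]), Finset.sum_pair hyz]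
  rw [hsum] at ht
  have key : ∀ p q : Fin r, (∀ A ∈ ({x, y, z} : Finset (Fin r)), Even ((R + ev p + ev q) A)) ↔
      Even (R x + (if x = p then 1 else 0) + (if x = q then 1 else 0)) ∧
      Even (R y + (if y = p then 1 else 0) + (if y = q then 1 else 0)) ∧
      Even (R z + (if z = p then 1 else 0) + (if z = q then 1 else 0)) := by
    intro p q
    simp only [Finset.mem_insert, Finset.mem_singleton, forall_eq_or_imp, forall_eq,
      Pi.add_apply, ev_apply]
  have hyx := hxy.symm
  have hzx := hxz.symm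
  have hzy := hyz.symm
  rcases Int.even_or_odd (R x) with h1 | h1 <;> rcases Int.even_or_odd (R y) with h2 | h2
  · have h3 : Even (R z) := by
      rcases Int.even_or_odd (R z) with h3 | h3
      · exact h3
      · exact absurd ht (Int.not_even_iff_odd.2 (h1.add_odd (h2.add_odd h3)))
    refine ⟨x, x, Or.inl rfl, Or.inl rfl, (key _ _).2 ?_⟩
    simp only [if_true, if_neg hyx, if_neg hzx, add_zero]
    exact ⟨by rw [add_assoc]; exact h1.add ⟨1, rfl⟩, h2, h3⟩
  · have h3 : Odd (R z) := by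
      rcases Int.even_or_odd (R z) with h3 | h3
      · exact absurd ht (Int.not_even_iff_odd.2 (h1.add_odd (h2.add_even h3)))
      · exact h3
    refine ⟨y, z, Or.inr rfl, Or.inr rfl, (key _ _).2 ?_⟩
    simp only [if_true, if_neg hxy, if_neg hxz, if_neg hyz, if_neg hzy, add_zero]
    exact ⟨h1, h2.add_one, h3.add_one⟩
  · have h3 : Odd (R z) := by
      rcases Int.even_or_odd (R z) with h3 | h3
      · exact absurd ht (Int.not_even_iff_odd.2 (h1.add_even (h2.add h3)))
      · exact h3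
    refine ⟨x, z, Or.inl rfl, Or.inr rfl, (key _ _).2 ?_⟩
    simp only [if_true, if_neg hxz, if_neg hyx, if_neg hyz, if_neg hzx, add_zero]
    exact ⟨h1.add_one, h2, h3.add_one⟩
  · have h3 : Even (R z) := by
      rcases Int.even_or_odd (R z) with h3 | h3
      · exact h3
      · exact absurd ht (Int.not_even_iff_odd.2 (h1.add_even (h2.add_odd h3)))
    refine ⟨y, x, Or.inr rfl, Or.inl rfl, (key _ _).2 ?_⟩
    simp only [if_true, if_neg hxy, if_neg hyx, if_neg hzx, if_neg hzy, add_zero]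
    exact ⟨h1.add_one, h2.add_one, h3⟩

end Pool.H86BX
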