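import Pool.Agent.H90.BX.FDef

/-! Pairings of tokens from balanced counts, and conversely. -/

set_option autoImplicit false

namespace Pool.H86BX

open Finset Pool.H90BX
open scoped Classical

variable {r : ℕ} {psi : Fin r → Fin r}

theorem ev_apply (A B : Fin r) : ev A B = if B = A then 1 else 0 := by
  simp [ev, Pi.single_apply]

theorem sum_ev {α : Type} (S : Finset α) (k : α → Fin r) (A : Fin r) :
    (∑ a ∈ S, ev (k a)) A = ((S.filter (fun a => k a = A)).card : ℤ) := by
  rw [Finset.sum_apply, Finset.card_filter]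
  push_cast
  refine Finset.sum_congr rfl (fun a _ => ?_)
  rw [ev_apply]
  by_cases h : k a = A
  · rw [if_pos h.symm, if_pos h]
  · rw [if_neg (Ne.symm h), if_neg h]

theorem bal_zero : Bal psi (0 : Fin r → ℤ) := fun A => ⟨rfl, fun _ => ⟨0, rfl⟩⟩

theorem bal_add {c d : Fin r → ℤ} (hc : Bal psi c) (hd : Bal psi d) : Bal psi (c + d) := fun A =>
  ⟨by rw [Pi.add_apply, Pi.add_apply, (hc A).1, (hd A).1],
    fun h => by rw [Pi.add_apply]; exact ((hc A).2 h).add ((hd A).2 h)⟩

theorem bal_sub {c d : Fin r → ℤ} (hc : Bal psi c) (hd : Bal psi d) : Bal psi (c - d) := fun A =>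
  ⟨by rw [Pi.sub_apply, Pi.sub_apply, (hc A).1, (hd A).1],
    fun h => by rw [Pi.sub_apply]; exact ((hc A).2 h).sub ((hd A).2 h)⟩

theorem bal_pair (hpsi : ∀ a, psi (psi a) = a) (A : Fin r) : Bal psi (ev A + ev (psi A)) := by
  intro B
  rw [Pi.add_apply, Pi.add_apply, ev_apply, ev_apply, ev_apply, ev_apply]
  have h1 : psi B = A ↔ B = psi A := ⟨fun h => by rw [← h, hpsi], fun h => by rw [h, hpsi]⟩
  have h2 : psi B = psi A ↔ B = A :=
    ⟨fun h => by rw [← hpsi B, h, hpsi], fun h => by rw [h]⟩
  refine ⟨?_, fun h => ?_⟩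
  · simp only [h1, h2]
    ring
  · by_cases h3 : B = A
    · have h4 : B = psi A := by rw [← h3, h]
      rw [if_pos h3, if_pos h4]
      exact ⟨1, rfl⟩
    · have h4 : ¬ B = psi A := fun h5 => h3 (by rw [← hpsi A, ← h5, h])
      rw [if_neg h3, if_neg h4]
      exact ⟨0, rfl⟩

/-- a fixed point free involution that dualises the classes gives balanced counts -/
theorem bal_of_inv {α : Type} (hpsi : ∀ a, psi (psi a) = a) (S : Finset α)
    (k : α → Fin r) (σ : α → α)
    (hσ : ∀ a ∈ S, σ a ∈ S ∧ σ (σ a) = a ∧ σ a ≠ a ∧ k (σ a) = psi (k a)) :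
    Bal psi (∑ a ∈ S, ev (k a)) := by
  intro A
  rw [sum_ev, sum_ev]
  refine ⟨?_, fun h => ?_⟩
  · congr 1
    refine Finset.card_bij (fun a _ => σ a) ?_ ?_ ?_
    · intro a ha
      rw [Finset.mem_filter] at ha ⊢
      have := hσ a ha.1
      exact ⟨this.1, by rw [this.2.2.2, ha.2]⟩
    · intro a ha b hb h
      rw [Finset.mem_filter] at ha hb
      rw [← (hσ a ha.1).2.1, h, (hσ b hb.1).2.1]
    · intro b hb
      rw [Finset.mem_filter] at hb
      have := hσ b hb.1
      exact ⟨σ b, Finset.mem_filter.2 ⟨this.1, by rw [this.2.2.2, hb.2, hpsi]⟩, this.2.1⟩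
  · have h1 : ((S.filter (fun a => k a = A)).card : ZMod 2) = 0 := by
      have h2 : ∑ a ∈ S.filter (fun a => k a = A), (1 : ZMod 2) = 0 := by
        refine Finset.sum_involution (fun a _ => σ a) ?_ ?_ ?_ ?_
        · intro a _; exact CharTwo.add_self_eq_zero _
        · intro a ha _
          exact (hσ a (Finset.mem_filter.1 ha).1).2.2.1
        · intro a ha
          rw [Finset.mem_filter] at ha ⊢
          have := hσ a ha.1
          exact ⟨this.1, by rw [this.2.2.2, ha.2, h]⟩
        · intro a ha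
          exact (hσ a (Finset.mem_filter.1 ha).1).2.1
      simpa using h2
    rw [ZMod.natCast_eq_zero_iff] at h1
    obtain ⟨m, hm⟩ := h1
    exact ⟨m, by rw [hm]; push_cast; ring⟩

/-- balanced counts give a pairing -/
theorem inv_of_bal {α : Type} (hpsi : ∀ a, psi (psi a) = a) (k : α → Fin r) :
    ∀ (n : ℕ) (S : Finset α), S.card = n → Bal psi (∑ a ∈ S, ev (k a)) →
      ∃ p : α → α, ∀ a ∈ S, p a ∈ S ∧ p (p a) = a ∧ p a ≠ a ∧ k (p a) = psi (k a) := by
  intro n
  induction n using Nat.strong_induction_on with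
  | _ n ih =>
    intro S hS hbal
    rcases S.eq_empty_or_nonempty with rfl | ⟨a, ha⟩
    · exact ⟨id, by simp⟩
    · -- a partner
      obtain ⟨b, hb, hba, hkb⟩ : ∃ b ∈ S, b ≠ a ∧ k b = psi (k a) := by
        have h1 := hbal (k a)
        rw [sum_ev, sum_ev] at h1
        by_cases hpa : psi (k a) = k a
        · have h2 := h1.2 hpa
          have h3 : 0 < (S.filter (fun x => k x = k a)).card :=
            Finset.card_pos.2 ⟨a, Finset.mem_filter.2 ⟨ha, rfl⟩⟩
          have h4 : 1 < (S.filter (fun x => k x = k a)).card := by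
            rcases h2 with ⟨m, hm⟩
            omega
          obtain ⟨b, hb, hne⟩ := Finset.exists_mem_ne h4 a
          rw [Finset.mem_filter] at hb
          exact ⟨b, hb.1, hne, by rw [hb.2, hpa]⟩
        · have h3 : 0 < (S.filter (fun x => k x = k a)).card :=
            Finset.card_pos.2 ⟨a, Finset.mem_filter.2 ⟨ha, rfl⟩⟩
          have h4 : 0 < (S.filter (fun x => k x = psi (k a))).card := by
            have := h1.1
            omega
          obtain ⟨b, hb⟩ := Finset.card_pos.1 h4
          rw [Finset.mem_filter] at hb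
          exact ⟨b, hb.1, fun h => hpa (by rw [← hb.2, h]), hb.2⟩
      set S' := (S.erase a).erase b with hS'
      have hb' : b ∈ S.erase a := Finset.mem_erase.2 ⟨hba, hb⟩
      have hcard : S'.card < n := by
        rw [hS', Finset.card_erase_of_mem hb', Finset.card_erase_of_mem ha, hS]
        have : 0 < n := by rw [← hS]; exact Finset.card_pos.2 ⟨a, ha⟩
        omega
      have hsum : ∑ x ∈ S', ev (k x) = ∑ x ∈ S, ev (k x) - (ev (k a) + ev (psi (k a))) := by
        rw [← Finset.add_sum_erase S _ ha, ← Finset.add_sum_erase (S.erase a) _ hb', hkb]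
        abel
      obtain ⟨p, hp⟩ := ih _ hcard S' rfl (by rw [hsum]; exact bal_sub hbal (bal_pair hpsi _))
      have hmem : ∀ x, x ∈ S' ↔ x ≠ b ∧ x ≠ a ∧ x ∈ S := by
        intro x; rw [hS', Finset.mem_erase, Finset.mem_erase]
      refine ⟨fun x => if x = a then b else if x = b then a else p x, ?_⟩
      intro x hx
      by_cases h1 : x = a
      · subst h1
        simp only [if_true, if_neg hba]
        exact ⟨hb, trivial, hba, hkb⟩
      · by_cases h2 : x = b
        · subst h2
          simp only [if_neg h1, if_true]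
          exact ⟨ha, trivial, Ne.symm h1, by rw [hkb, hpsi]⟩
        · have h3 := hp x ((hmem x).2 ⟨h2, h1, hx⟩)
          have h4 := (hmem _).1 h3.1
          simp only [if_neg h1, if_neg h2, if_neg h4.1, if_neg h4.2.1]
          exact ⟨h4.2.2, h3.2⟩

end Pool.H86BX
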