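import Pool.Agent.H86.BX.Pair

/-! H3: a solution gives the pairing of the tokens of every clean extension. -/

set_option autoImplicit false

namespace Pool.H86BX

open Finset Pool.H90BX
open scoped Classical

variable {V : Type} [Fintype V] [DecidableEq V] {r : ℕ} {l : LS V} {psi : Fin r → Fin r}
  {part : V → Lb → Fin r}

/-- sums over slots -/
theorem sum_slots {M : Type} [AddCommMonoid M] (P : V → Prop) (f : V × Bool → M)
    [DecidablePred (fun a : V × Bool => P a.1)] [DecidablePred P] :
    ∑ a ∈ univ.filter (fun a : V × Bool => P a.1), f a =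
      ∑ v ∈ univ.filter P, (f (v, false) + f (v, true)) := by
  rw [Finset.sum_filter, Finset.sum_filter, Fintype.sum_prod_type]
  refine Finset.sum_congr rfl (fun v _ => ?_)
  rw [Fintype.sum_bool]
  split_ifs
  · rw [add_comm]
  · simp

theorem fl_false (v : V) : fl (v, false) = (v, true) := rfl
theorem fl_true (v : V) : fl (v, true) = (v, false) := rfl

section ext

variable {BadV : Finset V} {CS C : Conf V} {kap : V × Bool → Fin r}

/-- labels of tokens outside BadV -/
theorem tok_lab (h : Sol l psi part BadV CS kap)
    (hC : Ext l BadV (fun v w => ¬ Reg l psi part v w) (BT l part) (Rl l) CS C)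
    {a : V × Bool} (ha : a.1 ∉ BadV) (hs : C.sg a = a) :
    C.lab a = mx l a.1 ∨ C.lab a = md l a.1 := by
  by_cases h2 : C.sg (fl a) = fl a
  · rw [hC.two a ha hs h2]
    have h3 := h.start.dflt a.1 ha
    obtain ⟨v, b⟩ := a
    cases b
    · exact Or.inl h3.1
    · exact Or.inr h3.2
  · rw [hC.one a ha hs h2]
    exact Rl_mem l a.1 _

/-- a token with partner slot used -/
theorem tok_one (hC : Ext l BadV (fun v w => ¬ Reg l psi part v w) (BT l part) (Rl l) CS C)
    {a : V × Bool} (ha : a.1 ∉ BadV) (hs : C.sg a = a) (h2 : C.sg (fl a) ≠ fl a)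
    (hne : C.lab (fl a) ≠ mx l a.1) : C.lab a = mx l a.1 := by
  rw [hC.one a ha hs h2]
  exact Rl_of_ne hne

theorem lab_sum (h : Sol l psi part BadV CS kap)
    (hC : Ext l BadV (fun v w => ¬ Reg l psi part v w) (BT l part) (Rl l) CS C)
    {v : V} (hv : v ∉ BadV) :
    ev (lam l part v (C.lab (v, false))) + ev (lam l part v (C.lab (v, true))) =
      ev (lam l part v (mx l v)) + ev (lam l part v (md l v)) := by
  have hne : C.lab (v, false) ≠ C.lab (v, true) := hC.ok.lab_ne (v, false)
  have hmd : ∀ i, i ≠ mx l v → lam l part v i = lam l part v (md l v) := fun i hi => by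
    rw [lam_of_ne l part v hi, lam_md]
  by_cases h1 : C.lab (v, false) = mx l v
  · rw [h1, hmd (C.lab (v, true)) (fun h2 => hne (h1.trans h2.symm))]
  · by_cases h2 : C.lab (v, true) = mx l v
    · rw [h2, hmd _ h1, add_comm]
    · rw [hmd _ h1, hmd _ h2]
      have hpart : part v (mx l v) = part v (md l v) := by
        by_contra hcon
        have hT3 := (h.out v hv).2.2 hcon
        have s1 : C.sg (v, false) ≠ (v, false) := by
          intro hs
          by_cases h3 : C.sg (v, true) = (v, true)
          · have h4 := hC.two (v, false) hv hs h3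
            rw [(h.start.dflt v hv).1] at h4
            exact h1 h4
          · exact h1 (tok_one hC (a := (v, false)) hv hs h3 h2)
        have s2 : C.sg (v, true) ≠ (v, true) := by
          intro hs
          exact h2 (tok_one hC (a := (v, true)) hv hs s1 h1)
        have u1 := hC.ok.lab_eq _ s1
        have u2 := hC.ok.lab_eq _ s2
        have w1 := hC.ok.ne _ s1
        have w2 := hC.ok.ne _ s2
        have k1 := T3_used hT3 w1
        have k2 := T3_used hT3 w2
        rw [← u1] at k1
        rw [← u2] at k2
        have hbt : BT l part v (C.lab (v, false)) (C.lab (v, true)) := by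
          refine ⟨hcon, ?_⟩
          rcases k1 with k1 | k1 | k1
          · exact absurd k1 h1
          · rcases k2 with k2 | k2 | k2
            · exact absurd k2 h2
            · exact absurd (k1.trans k2.symm) hne
            · exact Or.inl ⟨k1, k2⟩
          · rcases k2 with k2 | k2 | k2
            · exact absurd k2 h2
            · exact Or.inr ⟨k1, k2⟩
            · exact absurd (k1.trans k2.symm) hne
        exact hC.trans (v, false) hv s1 s2 hbt
      rw [lam_mx, lam_md, hpart]

theorem sg_out (h : Sol l psi part BadV CS kap)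
    (hC : Ext l BadV (fun v w => ¬ Reg l psi part v w) (BT l part) (Rl l) CS C)
    {a : V × Bool} (ha : a.1 ∉ BadV) (hs : C.sg a ≠ a) : (C.sg a).1 ∉ BadV := by
  intro hb
  have h1 := (hC.same (C.sg a) hb).1
  rw [hC.ok.inv] at h1
  have h2 := h.start.ok.inv (C.sg a)
  rw [← h1, h.start.out a ha] at h2
  exact hs h2.symm

theorem sol_paired (hpsi : ∀ a, psi (psi a) = a) (h : Sol l psi part BadV CS kap)
    (hC : Ext l BadV (fun v w => ¬ Reg l psi part v w) (BT l part) (Rl l) CS C) :
    Paired C (fun a b => ∃ A, Act l psi part a.1 (C.lab a) A ∧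
      Act l psi part b.1 (C.lab b) (psi A)) := by
  set kk : V × Bool → Fin r := fun a => if a.1 ∈ BadV then kap a else lam l part a.1 (C.lab a)
    with hkk
  have hact : ∀ a, C.sg a = a → Act l psi part a.1 (C.lab a) (kk a) := by
    intro a ha
    by_cases hb : a.1 ∈ BadV
    · have h1 := hC.same a hb
      rw [hkk]
      simp only [if_pos hb]
      rw [h1.2]
      exact h.act a hb (by rw [← h1.1, ha])
    · rw [hkk]
      simp only [if_neg hb]
      rcases tok_lab h hC hb ha with h1 | h1
      · rw [h1]; exact (h.out a.1 hb).1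
      · rw [h1]; exact (h.out a.1 hb).2.1
  -- the total of the tokens is balanced
  have hbal : Bal psi (∑ a ∈ univ.filter (fun a : V × Bool => C.sg a = a), ev (kk a)) := by
    have hS2 : Bal psi (∑ a ∈ univ.filter (fun a : V × Bool => a.1 ∉ BadV ∧ C.sg a ≠ a),
        ev (lam l part a.1 (C.lab a))) := by
      refine bal_of_inv hpsi _ _ C.sg ?_
      intro a ha
      have ha' := (Finset.mem_filter.1 ha).2
      have h1 := sg_out h hC ha'.1 ha'.2
      have h2 : C.sg (C.sg a) ≠ C.sg a := by
        rw [hC.ok.inv]; exact Ne.symm ha'.2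
      refine ⟨Finset.mem_filter.2 ⟨Finset.mem_univ _, h1, h2⟩, hC.ok.inv a, ha'.2, ?_⟩
      have h3 := hC.edge a ha'.1 ha'.2
      rw [not_not] at h3
      rw [hC.ok.lab_eq a ha'.2, hC.ok.lab_eq (C.sg a) h2, hC.ok.inv]
      exact h3
    have hsplit : ∑ a ∈ univ.filter (fun a : V × Bool => C.sg a = a), ev (kk a) =
        (∑ v ∈ BadVᶜ, (ev (lam l part v (mx l v)) + ev (lam l part v (md l v))) +
        ∑ a ∈ univ.filter (fun a : V × Bool => a.1 ∈ BadV ∧ CS.sg a = a), ev (kap a)) -
        ∑ a ∈ univ.filter (fun a : V × Bool => a.1 ∉ BadV ∧ C.sg a ≠ a),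
          ev (lam l part a.1 (C.lab a)) := by
      have e1 : ∑ v ∈ BadVᶜ, (ev (lam l part v (mx l v)) + ev (lam l part v (md l v))) =
          ∑ a ∈ univ.filter (fun a : V × Bool => a.1 ∉ BadV), ev (lam l part a.1 (C.lab a)) := by
        rw [sum_slots (fun v => v ∉ BadV) (fun a => ev (lam l part a.1 (C.lab a)))]
        have e0 : univ.filter (fun v => v ∉ BadV) = BadVᶜ := by ext v; simp
        rw [e0]
        refine Finset.sum_congr rfl (fun v hv => ?_)
        exact (lab_sum h hC (by simpa using hv)).symm
      have e2 : ∑ a ∈ univ.filter (fun a : V × Bool => a.1 ∉ BadV), ev (lam l part a.1 (C.lab a)) =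
          ∑ a ∈ univ.filter (fun a : V × Bool => a.1 ∉ BadV ∧ C.sg a = a),
            ev (lam l part a.1 (C.lab a)) +
          ∑ a ∈ univ.filter (fun a : V × Bool => a.1 ∉ BadV ∧ C.sg a ≠ a),
            ev (lam l part a.1 (C.lab a)) := by
        rw [← Finset.sum_filter_add_sum_filter_not (univ.filter (fun a : V × Bool => a.1 ∉ BadV))
          (fun a => C.sg a = a), Finset.filter_filter, Finset.filter_filter]
      have e3 : ∑ a ∈ univ.filter (fun a : V × Bool => C.sg a = a), ev (kk a) =
          ∑ a ∈ univ.filter (fun a : V × Bool => a.1 ∈ BadV ∧ CS.sg a = a), ev (kap a) +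
          ∑ a ∈ univ.filter (fun a : V × Bool => a.1 ∉ BadV ∧ C.sg a = a),
            ev (lam l part a.1 (C.lab a)) := by
        rw [← Finset.sum_filter_add_sum_filter_not (univ.filter (fun a : V × Bool => C.sg a = a))
          (fun a => a.1 ∈ BadV), Finset.filter_filter, Finset.filter_filter]
        congr 1
        · refine Finset.sum_congr ?_ ?_
          · ext a
            simp only [Finset.mem_filter, Finset.mem_univ, true_and]
            constructor
            · rintro ⟨h1, h2⟩
              exact ⟨h2, by rw [← (hC.same a h2).1, h1]⟩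
            · rintro ⟨h1, h2⟩
              exact ⟨by rw [(hC.same a h1).1, h2], h1⟩
          · intro a ha
            have := (Finset.mem_filter.1 ha).2.1
            rw [hkk]; simp only [if_pos this]
        · refine Finset.sum_congr ?_ ?_
          · ext a
            simp only [Finset.mem_filter, Finset.mem_univ, true_and]
            exact and_comm
          · intro a ha
            have := (Finset.mem_filter.1 ha).2.1
            rw [hkk]; simp only [if_neg this]
      rw [e1, e2, e3]
      abel
    rw [hsplit]
    exact bal_sub h.bal hS2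
  obtain ⟨p, hp⟩ := inv_of_bal hpsi kk _ _ rfl hbal
  refine ⟨p, fun a ha => ?_⟩
  have h1 := hp a (Finset.mem_filter.2 ⟨Finset.mem_univ _, ha⟩)
  have h2 := (Finset.mem_filter.1 h1.1).2
  exact ⟨h2, h1.2.1, h1.2.2.1, kk a, hact a ha, by rw [← h1.2.2.2]; exact hact _ h2⟩

end ext

end Pool.H86BX
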